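import Pool.Agent.U559.CQ.Lift

/-!
# Isometries commuting with `DD`
-/

set_option autoImplicit false
set_option linter.unusedSectionVars false
set_option linter.style.haveILetI false

namespace Pool.Agent.U559.CQ

open Filter Topology Pool.H590R3.Ab Pool.Agent.TH596.RO Pool.Agent.U559.CP
open scoped Quaternion

section alg
variable {V : Type*} [NormedRing V] [NormedAlgebra ℝ V]

lemma quat_basis {A : Subalgebra ℝ V} (φ : A ≃ₐ[ℝ] ℍ[ℝ]) : ∃ i j k : V, i ∈ A ∧ j ∈ A ∧ k ∈ A ∧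
    i * i = -1 ∧ j * j = -1 ∧ k * k = -1 ∧ i * j = k ∧ j * k = i ∧ k * i = j ∧
    j * i = -k ∧ k * j = -i ∧ i * k = -j ∧
    ∀ d ∈ A, ∃ a b c e : ℝ, d = a • (1 : V) + b • i + c • j + e • k := by
  have hm : ∀ x y z : ℍ[ℝ], x * y = z → (φ.symm x : V) * (φ.symm y : V) = (φ.symm z : V) := by
    intro x y z h
    rw [← h, map_mul]
    rfl
  have hn : ∀ x y z : ℍ[ℝ], x * y = -z → (φ.symm x : V) * (φ.symm y : V) = -(φ.symm z : V) := by
    intro x y z h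
    rw [hm x y (-z) h, map_neg]
    rfl
  have h1 : ∀ x y : ℍ[ℝ], x * y = -1 → (φ.symm x : V) * (φ.symm y : V) = -1 := by
    intro x y h
    rw [hn x y 1 h, map_one]
    rfl
  refine ⟨(φ.symm ⟨0, 1, 0, 0⟩ : A), (φ.symm ⟨0, 0, 1, 0⟩ : A), (φ.symm ⟨0, 0, 0, 1⟩ : A),
    (φ.symm _).2, (φ.symm _).2, (φ.symm _).2, h1 _ _ ?_, h1 _ _ ?_, h1 _ _ ?_, hm _ _ _ ?_,
    hm _ _ _ ?_, hm _ _ _ ?_, hn _ _ _ ?_, hn _ _ _ ?_, hn _ _ _ ?_, ?_⟩
  · ext <;> simp
  · ext <;> simp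
  · ext <;> simp
  · ext <;> simp
  · ext <;> simp
  · ext <;> simp
  · ext <;> simp
  · ext <;> simp
  · ext <;> simp
  · intro d hd
    obtain ⟨x, hx⟩ : ∃ x, x = φ ⟨d, hd⟩ := ⟨_, rfl⟩
    refine ⟨x.re, x.imI, x.imJ, x.imK, ?_⟩
    have h2 : (⟨d, hd⟩ : A) = x.re • (1 : A) + x.imI • φ.symm ⟨0, 1, 0, 0⟩ +
        x.imJ • φ.symm ⟨0, 0, 1, 0⟩ + x.imK • φ.symm ⟨0, 0, 0, 1⟩ := by
      apply φ.injective
      rw [← hx, map_add, map_add, map_add, map_smul, map_smul, map_smul, map_smul, map_one,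
        φ.apply_symm_apply, φ.apply_symm_apply, φ.apply_symm_apply]
      ext <;> simp
    have h3 := congrArg (fun a : A => (a : V)) h2
    exact h3

lemma cplx_basis {A : Subalgebra ℝ V} (φ : A ≃ₐ[ℝ] ℂ) : ∃ i : V, i ∈ A ∧ i * i = -1 ∧
    ∀ d ∈ A, ∃ a b : ℝ, d = a • (1 : V) + b • i := by
  refine ⟨(φ.symm Complex.I : A), (φ.symm _).2, ?_, ?_⟩
  · have h : (φ.symm Complex.I) * (φ.symm Complex.I) = -1 := by
      rw [← map_mul, Complex.I_mul_I, map_neg, map_one]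
    exact congrArg (fun a : A => (a : V)) h
  · intro d hd
    obtain ⟨x, hx⟩ : ∃ x, x = φ ⟨d, hd⟩ := ⟨_, rfl⟩
    refine ⟨x.re, x.im, ?_⟩
    have h2 : (⟨d, hd⟩ : A) = x.re • (1 : A) + x.im • φ.symm Complex.I := by
      apply φ.injective
      rw [← hx, map_add, map_smul, map_smul, map_one, φ.apply_symm_apply]
      apply Complex.ext <;> simp
    exact congrArg (fun a : A => (a : V)) h2

lemma cen_z {A : Subalgebra ℝ V}
    (hA : Nonempty (A ≃ₐ[ℝ] ℝ) ∨ Nonempty (A ≃ₐ[ℝ] ℂ) ∨ Nonempty (A ≃ₐ[ℝ] ℍ[ℝ]))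
    (α : V →ₐ[ℝ] V) {κ : ℝ} (hα : ∀ d ∈ A, α d ∈ A) (hn : ∀ d ∈ A, ‖d‖ ≤ 1 → ‖α d - d‖ ≤ κ)
    (hu : ∀ a ∈ A, a * a = -1 → ‖a‖ ≤ 1) :
    ∃ z ∈ A, ‖z - 1‖ ≤ κ ∧ ∀ d ∈ A, α d * z = z * d := by
  have hκ : 0 ≤ κ := by
    have := hn 0 A.zero_mem (by rw [norm_zero]; exact zero_le_one)
    exact (norm_nonneg _).trans this
  have hd1 : ∀ i ∈ A, i * i = -1 → ‖(i - α i) * i‖ ≤ κ := by
    intro i hi hii
    refine (norm_mul_le _ _).trans ?_
    rw [norm_sub_rev]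
    calc ‖α i - i‖ * ‖i‖ ≤ κ * 1 := mul_le_mul (hn i hi (hu i hi hii)) (hu i hi hii) (norm_nonneg _) hκ
      _ = κ := mul_one _
  have hαn : ∀ x y : V, x * y = -1 → α x * α y = -1 := by
    intro x y h
    rw [← map_mul, h, map_neg, map_one]
  rcases hA with ⟨⟨φ⟩⟩ | ⟨⟨φ⟩⟩ | ⟨⟨φ⟩⟩
  · refine ⟨1, A.one_mem, by rw [sub_self, norm_zero]; exact hκ, fun d hd => ?_⟩
    have h1 : (⟨d, hd⟩ : A) = algebraMap ℝ A (φ ⟨d, hd⟩) := by
      apply φ.injective
      rw [AlgEquiv.commutes]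
      rfl
    have h2 : d = algebraMap ℝ V (φ ⟨d, hd⟩) := congrArg (fun a : A => (a : V)) h1
    rw [mul_one, one_mul, h2, AlgHom.commutes]
  · obtain ⟨i, hi, hii, hsp⟩ := cplx_basis φ
    have hII := hαn i i hii
    have hz1 : (1 / 2 : ℝ) • (1 - α i * i) - 1 = (1 / 2 : ℝ) • ((i - α i) * i) := by
      rw [sub_mul, hii]
      module
    refine ⟨(1 / 2 : ℝ) • (1 - α i * i), A.smul_mem (A.sub_mem A.one_mem (A.mul_mem (hα i hi) hi)) _,
      ?_, ?_⟩
    · rw [hz1, norm_smul, Real.norm_of_nonneg (by norm_num : (0:ℝ) ≤ 1 / 2)]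
      have := hd1 i hi hii
      linarith
    · have hi' : α i * ((1 / 2 : ℝ) • (1 - α i * i)) = ((1 / 2 : ℝ) • (1 - α i * i)) * i := by
        rw [mul_smul_comm, smul_mul_assoc, mul_sub, sub_mul, mul_one, one_mul, ← mul_assoc, hII,
          mul_assoc, hii, neg_one_mul, mul_neg_one]
        abel_nf
      intro d hd
      obtain ⟨a, b, rfl⟩ := hsp d hd
      rw [map_add, map_smul, map_smul, map_one, add_mul, mul_add, smul_mul_assoc, smul_mul_assoc,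
        one_mul, hi', mul_smul_comm, mul_smul_comm, mul_one]
  · obtain ⟨i, j, k, hi, hj, hk, hii, hjj, hkk, hij, hjk, hki, hji, hkj, hik, hsp⟩ := quat_basis φ
    set I := α i with hId
    set J := α j with hJd
    set K := α k with hKd
    have hII : I * I = -1 := hαn i i hii
    have hJJ : J * J = -1 := hαn j j hjj
    have hKK : K * K = -1 := hαn k k hkk
    have hIJ : I * J = K := by rw [hId, hJd, ← map_mul, hij]
    have hJK : J * K = I := by rw [hKd, hJd, ← map_mul, hjk]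
    have hIK : I * K = -J := by rw [hId, hKd, ← map_mul, hik, map_neg]
    have hJI : J * I = -K := by rw [hId, hJd, ← map_mul, hji, map_neg]
    set z : V := (1 / 4 : ℝ) • (1 - I * i - J * j - K * k) with hz
    have hzA : z ∈ A := A.smul_mem (A.sub_mem (A.sub_mem (A.sub_mem A.one_mem
      (A.mul_mem (hα i hi) hi)) (A.mul_mem (hα j hj) hj)) (A.mul_mem (hα k hk) hk)) _
    have hz1 : z - 1 = (1 / 4 : ℝ) • ((i - I) * i + (j - J) * j + (k - K) * k) := by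
      rw [hz, sub_mul, sub_mul, sub_mul, hii, hjj, hkk]
      module
    have hi' : I * z = z * i := by
      have e1 : I * (I * i) = -i := by rw [← mul_assoc, hII, neg_one_mul]
      have e2 : I * (J * j) = K * j := by rw [← mul_assoc, hIJ]
      have e3 : I * (K * k) = -(J * k) := by rw [← mul_assoc, hIK, neg_mul]
      have e4 : I * i * i = -I := by rw [mul_assoc, hii, mul_neg_one]
      have e5 : J * j * i = -(J * k) := by rw [mul_assoc, hji, mul_neg]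
      have e6 : K * k * i = K * j := by rw [mul_assoc, hki]
      rw [hz, mul_smul_comm, smul_mul_assoc, mul_sub, mul_sub, mul_sub, sub_mul, sub_mul, sub_mul,
        e1, e2, e3, e4, e5, e6, mul_one, one_mul]
      congr 1
      abel
    have hj' : J * z = z * j := by
      have e1 : J * (I * i) = -(K * i) := by rw [← mul_assoc, hJI, neg_mul]
      have e2 : J * (J * j) = -j := by rw [← mul_assoc, hJJ, neg_one_mul]
      have e3 : J * (K * k) = I * k := by rw [← mul_assoc, hJK]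
      have e4 : I * i * j = I * k := by rw [mul_assoc, hij]
      have e5 : J * j * j = -J := by rw [mul_assoc, hjj, mul_neg_one]
      have e6 : K * k * j = -(K * i) := by rw [mul_assoc, hkj, mul_neg]
      rw [hz, mul_smul_comm, smul_mul_assoc, mul_sub, mul_sub, mul_sub, sub_mul, sub_mul, sub_mul,
        e1, e2, e3, e4, e5, e6, mul_one, one_mul]
      congr 1
      abel
    have hk' : K * z = z * k := by
      rw [← hIJ, mul_assoc, hj', ← mul_assoc, hi', mul_assoc, hij]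
    refine ⟨z, hzA, ?_, ?_⟩
    · rw [hz1, norm_smul, Real.norm_of_nonneg (by norm_num : (0:ℝ) ≤ 1 / 4)]
      have h1 := hd1 i hi hii
      have h2 := hd1 j hj hjj
      have h3 := hd1 k hk hkk
      have h4 := norm_add_le ((i - I) * i + (j - J) * j) ((k - K) * k)
      have h5 := norm_add_le ((i - I) * i) ((j - J) * j)
      linarith
    · intro d hd
      obtain ⟨a, b, c, e, rfl⟩ := hsp d hd
      rw [map_add, map_add, map_add, map_smul, map_smul, map_smul, map_smul, map_one, ← hId, ← hJd,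
        ← hKd, add_mul, add_mul, add_mul, mul_add, mul_add, mul_add, smul_mul_assoc, smul_mul_assoc,
        smul_mul_assoc, smul_mul_assoc, one_mul, hi', hj', hk', mul_smul_comm, mul_smul_comm,
        mul_smul_comm, mul_smul_comm, mul_one]

lemma inv_z {A : Subalgebra ℝ V}
    (hA : Nonempty (A ≃ₐ[ℝ] ℝ) ∨ Nonempty (A ≃ₐ[ℝ] ℂ) ∨ Nonempty (A ≃ₐ[ℝ] ℍ[ℝ]))
    {z : V} (hz : z ∈ A) (hz0 : z ≠ 0) : ∃ w ∈ A, z * w = 1 ∧ w * z = 1 := by
  have key : ∀ (F : Type) [DivisionRing F] [Algebra ℝ F] (φ : A ≃ₐ[ℝ] F),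
      ∃ w ∈ A, z * w = 1 ∧ w * z = 1 := by
    intro F _ _ φ
    have h0 : φ ⟨z, hz⟩ ≠ 0 := by
      intro h
      apply hz0
      have h1 : (⟨z, hz⟩ : A) = 0 := φ.injective (by rw [h, map_zero])
      exact congrArg (fun a : A => (a : V)) h1
    refine ⟨(φ.symm (φ ⟨z, hz⟩)⁻¹ : A), (φ.symm _).2, ?_, ?_⟩
    · have h1 : (⟨z, hz⟩ : A) * φ.symm (φ ⟨z, hz⟩)⁻¹ = 1 := by
        apply φ.injective
        rw [map_mul, φ.apply_symm_apply, mul_inv_cancel₀ h0, map_one]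
      exact congrArg (fun a : A => (a : V)) h1
    · have h1 : φ.symm (φ ⟨z, hz⟩)⁻¹ * (⟨z, hz⟩ : A) = 1 := by
        apply φ.injective
        rw [map_mul, φ.apply_symm_apply, inv_mul_cancel₀ h0, map_one]
      exact congrArg (fun a : A => (a : V)) h1
  rcases hA with ⟨⟨φ⟩⟩ | ⟨⟨φ⟩⟩ | ⟨⟨φ⟩⟩
  · exact key ℝ φ
  · exact key ℂ φ
  · exact key ℍ[ℝ] φ

end alg

variable {E : Type*} [NormedAddCommGroup E] [NormedSpace ℝ E]

/-- an isometry commuting with `DD` -/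
theorem centr [CompleteSpace E] (hE : ¬ FiniteDimensional ℝ E)
    (hat : AT (⊤ : Subgroup (E ≃ₗᵢ[ℝ] E))) {T : E ≃ₗᵢ[ℝ] E} {ρ : ℝ} (hρ : ρ ≤ 1 / 8)
    (hT : Nc ρ (op T - 1 : E →L[ℝ] E)) :
    ∃ U : E ≃ₗᵢ[ℝ] E, op U⁻¹ ∈ DD (⊤ : Subgroup (E ≃ₗᵢ[ℝ] E)) ∧
      ‖op U - 1‖ ≤ 4 * ρ ∧ ∀ d ∈ DD (⊤ : Subgroup (E ≃ₗᵢ[ℝ] E)),
        op (T⁻¹ * U) * d = d * op (T⁻¹ * U) := by
  haveI : Nontrivial E := nontriv hE
  obtain ⟨x0, hx0⟩ : ∃ e : E, ‖e‖ = 1 := exists_norm_eq E zero_le_one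
  have hcore := core_DD hE hat
  have hα : ∀ d ∈ DD (⊤ : Subgroup (E ≃ₗᵢ[ℝ] E)), cj T d ∈ DD (⊤ : Subgroup (E ≃ₗᵢ[ℝ] E)) :=
    fun d hd => DD_inv (Subgroup.mem_top T) hd
  have hn : ∀ d ∈ DD (⊤ : Subgroup (E ≃ₗᵢ[ℝ] E)), ‖d‖ ≤ 1 → ‖cj T d - d‖ ≤ 2 * ρ := by
    intro d hd hd1
    apply norm_DD hE hat (Subalgebra.sub_mem _ (hα d hd) hd)
    have h1 : cj T d - d = (op T - 1) * (d * op T⁻¹) + d * (op T⁻¹ - 1) := by
      rw [cj_eq_op]
      noncomm_ring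
    rw [h1, two_mul]
    have h2 := hT.mul_right (B := d * op T⁻¹) (c := 1) (by rw [norm_mul_op]; exact hd1)
    have h3 := hT.inv.mul_left (B := d) (c := 1) hd1
    rw [mul_one] at h2
    rw [one_mul] at h3
    exact h2.add h3
  have hu : ∀ a ∈ DD (⊤ : Subgroup (E ≃ₗᵢ[ℝ] E)), a * a = -1 → ‖a‖ ≤ 1 := by
    intro a ha haa
    have h1 := hcore.2 a ha (a x0)
    have h2 := hcore.2 a ha x0
    have h3 : a (a x0) = -x0 := DFunLike.congr_fun haa x0
    rw [h3, norm_neg, h2, hx0, mul_one] at h1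
    nlinarith [norm_nonneg a]
  obtain ⟨z, hz, hz1, hzc⟩ := cen_z hcore.1 (cj T) hα hn hu
  have hzn : |‖z‖ - 1| ≤ 2 * ρ := by
    have h1 := abs_norm_sub_norm_le z (1 : E →L[ℝ] E)
    rw [norm_one] at h1
    exact h1.trans hz1
  have hz0 : 0 < ‖z‖ := by
    have := abs_le.1 hzn
    linarith
  obtain ⟨w, hw, hzw, hwz⟩ := inv_z hcore.1 hz (norm_pos_iff.1 hz0)
  let U : E ≃ₗᵢ[ℝ] E :=
    { toFun := fun x => ‖z‖⁻¹ • z x
      invFun := fun x => ‖z‖ • w x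
      map_add' := fun x y => by rw [map_add, smul_add]
      map_smul' := fun r x => by rw [map_smul, smul_comm, RingHom.id_apply]
      left_inv := fun x => by
        show ‖z‖ • w (‖z‖⁻¹ • z x) = x
        have h1 : w (z x) = x := DFunLike.congr_fun hwz x
        rw [map_smul, smul_smul, mul_inv_cancel₀ hz0.ne', one_smul, h1]
      right_inv := fun x => by
        show ‖z‖⁻¹ • z (‖z‖ • w x) = x
        have h1 : z (w x) = x := DFunLike.congr_fun hzw x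
        rw [map_smul, smul_smul, inv_mul_cancel₀ hz0.ne', one_smul, h1]
      norm_map' := fun x => by
        show ‖‖z‖⁻¹ • z x‖ = ‖x‖
        rw [norm_smul, norm_inv, norm_norm, hcore.2 z hz x, inv_mul_cancel_left₀ hz0.ne'] }
  have hU : op U = ‖z‖⁻¹ • z := rfl
  have hU' : op U⁻¹ = ‖z‖ • w := rfl
  refine ⟨U, ?_, ?_, ?_⟩
  · rw [hU']
    exact Subalgebra.smul_mem _ hw _
  · have h1 : op U - 1 = (‖z‖⁻¹ - 1) • z + (z - 1) := by
      rw [hU]
      module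
    rw [h1]
    refine (norm_add_le _ _).trans ?_
    have h2 : ‖(‖z‖⁻¹ - 1) • z‖ = |‖z‖ - 1| := by
      rw [norm_smul, Real.norm_eq_abs, ← abs_of_pos hz0, ← abs_mul, abs_of_pos hz0, sub_mul,
        inv_mul_cancel₀ hz0.ne', one_mul, abs_sub_comm]
    rw [h2]
    linarith
  · intro d hd
    have h1 := hzc d hd
    rw [cj_eq_op] at h1
    have h2 : op T⁻¹ * op T = 1 := by rw [← op_mul, inv_mul_cancel, op_one]
    have h3 : d * (op T⁻¹ * z) = op T⁻¹ * z * d := by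
      calc d * (op T⁻¹ * z) = (op T⁻¹ * op T) * d * (op T⁻¹ * z) := by rw [h2, one_mul]
        _ = op T⁻¹ * (op T * d * op T⁻¹ * z) := by simp only [mul_assoc]
        _ = _ := by rw [h1, mul_assoc]
    rw [op_mul, hU, mul_smul_comm, smul_mul_assoc, mul_smul_comm, h3]

end Pool.Agent.U559.CQ
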