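import Pool.Agent.U559.CP.SS

/-!
# Isometries which are close to compact perturbations of the identity, and a skew operator
-/

set_option autoImplicit false
set_option linter.unusedSectionVars false
set_option linter.style.haveILetI false

namespace Pool.Agent.U559.CQ

open Filter Topology Pool.H590R3.Ab Pool.Agent.W687.Rot Pool.Agent.TH596.RO Pool.Agent.U559.CP

variable {Y : Type*} [NormedAddCommGroup Y] [NormedSpace ℝ Y] [CompleteSpace Y]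

/-- the part of the space on which `T` is away from the identity is finite dimensional -/
def FDc (T : Y ≃ₗᵢ[ℝ] Y) (c : ℝ) : Prop :=
  FiniteDimensional ℝ (LinearMap.range ((1 - Ps T (bd c) : Y →L[ℝ] Y) : Y →ₗ[ℝ] Y))

/-- the bound of the inverse -/
noncomputable def Gc (c : ℝ) : ℝ := ∑' k, |cg (gam (c / 2)) k|

lemma Gc_nonneg (c : ℝ) : 0 ≤ Gc c := tsum_nonneg (fun _ => abs_nonneg _)

lemma fd_near {T : Y ≃ₗᵢ[ℝ] Y} {K : Y → Y} (hK : SSg K) {ρ c : ℝ} (hc : 0 < c)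
    (hR : ∀ y, ‖T y - y - K y‖ ≤ ρ * ‖y‖) (h : ρ * Gc c < 1) : FDc T c := by
  unfold FDc
  by_contra hcon
  have hG0 : 0 ≤ Gc c := Gc_nonneg c
  set G := Gc c with hG
  set η : ℝ := (1 - ρ * G) / (G + 1) with hη
  have hη0 : 0 < η := by
    apply div_pos <;> linarith
  obtain ⟨x, hx, hx1, hx2⟩ := hK _ hcon η hη0
  obtain ⟨y, rfl⟩ := hx
  set x : Y := (1 - Ps T (bd c) : Y →L[ℝ] Y) y with hxd
  have h1 : (1 - Ps T (bd (c / 2))) * (1 - Ps T (bd c)) = (1 - Ps T (bd c)) := by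
    rw [mul_sub, mul_one, sub_mul, one_mul, bd_bd (half_pos hc) le_rfl T]
    abel
  have h2 : x - Ps T (bd (c / 2)) x = x := DFunLike.congr_fun h1 y
  have h3 := gam_apply T (half_pos hc) x
  have hx1' : ‖x‖ = 1 := hx1
  have hx2' : ‖K x‖ < η := hx2
  have h4 : ‖x‖ ≤ G * ‖T x - x‖ := by
    have h5 : Ps T (gam (c / 2)) (Nn T x) = -x := by
      rw [← h3]
      nth_rewrite 3 [← h2]
      abel
    rw [← norm_neg x, ← h5]
    refine ((Ps T (gam (c / 2))).le_opNorm _).trans ?_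
    exact mul_le_mul (Ps_norm T (gam_contDiff (half_pos hc))) (Nn_le T x) (norm_nonneg _) hG0
  have h5 : ‖T x - x‖ ≤ ρ + η := by
    have h6 := hR x
    rw [hx1', mul_one] at h6
    have h7 := norm_add_le (T x - x - K x) (K x)
    rw [sub_add_cancel] at h7
    linarith
  have h6 : G * ‖T x - x‖ ≤ G * (ρ + η) := mul_le_mul_of_nonneg_left h5 hG0
  have h7 : G * η < 1 - ρ * G := by
    rw [hη, mul_div_assoc', div_lt_iff₀ (by linarith)]
    nlinarith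
  rw [hx1'] at h4
  nlinarith

lemma pDp' {e : ℝ} (he : 0 < e) : ∃ c : ℝ, 0 < c ∧ ∀ (T : Y ≃ₗᵢ[ℝ] Y) (B : Y →L[ℝ] Y),
    Ps T (bd c) * Dd T e B * Ps T (bd c) = 0 := by
  obtain ⟨c, hc, h⟩ := zero_of (Z := Y →L[ℝ] Y) (half_pos he)
  refine ⟨c / 2, half_pos hc, fun T B => ?_⟩
  set p := Ps T (bd (c / 2)) with hp
  have h1 : Ps T (bd c) * p = p := bd_bd' (half_pos hc) le_rfl T
  have h2 : p * Ps T (bd c) = p := bd_bd (half_pos hc) le_rfl T
  apply h (Lm T) (Rm T) (p * Dd T e B * p)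
  · rw [Ps_Lm T (bd_contDiff c), ← mul_assoc, ← mul_assoc, h1]
  · rw [Ps_Rm T (bd_contDiff c), mul_assoc, h2]
  · have h3 : p * Dd T e B * p = Ps (Lm T) (bd (c / 2)) (Ps (Rm T) (bd (c / 2)) (Dd T e B)) := by
      rw [Ps_Rm T (bd_contDiff _), Ps_Lm T (bd_contDiff _), ← mul_assoc]
    have hcL : Commute (Lm T * Rm T) (Lm T) := (Commute.refl (Lm T)).mul_left (LR_comm T T).symm
    have hcR : Commute (Lm T * Rm T) (Rm T) := (LR_comm T T).mul_left (Commute.refl (Rm T))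
    have h4 := cm_Ps hcL (bd_contDiff (e / 2)) (bd_contDiff (c / 2))
    have h5 := cm_Ps hcR (bd_contDiff (e / 2)) (bd_contDiff (c / 2))
    have h6 : Ps (Lm T * Rm T) (bd (e / 2)) (Dd T e B) = 0 := by
      have h7 := bd_bd (half_pos he) le_rfl (Lm T * Rm T)
      have h8 := DFunLike.congr_fun h7 B
      have h9 : Ps (Lm T * Rm T) (bd (e / 2)) (Ps (Lm T * Rm T) (bd e) B) =
        Ps (Lm T * Rm T) (bd (e / 2)) B := h8
      show Ps (Lm T * Rm T) (bd (e / 2)) (B - Ps (Lm T * Rm T) (bd e) B) = 0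
      rw [map_sub, h9, sub_self]
    rw [h3]
    have h10 : ∀ z, Ps (Lm T * Rm T) (bd (e / 2)) (Ps (Lm T) (bd (c / 2)) z) =
      Ps (Lm T) (bd (c / 2)) (Ps (Lm T * Rm T) (bd (e / 2)) z) := fun z => DFunLike.congr_fun h4 z
    have h11 : ∀ z, Ps (Lm T * Rm T) (bd (e / 2)) (Ps (Rm T) (bd (c / 2)) z) =
      Ps (Rm T) (bd (c / 2)) (Ps (Lm T * Rm T) (bd (e / 2)) z) := fun z => DFunLike.congr_fun h5 z
    rw [h10, h11, h6, map_zero, map_zero]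

lemma Dd_fr' {T : Y ≃ₗᵢ[ℝ] Y} {e c : ℝ} {B : Y →L[ℝ] Y}
    (h : Ps T (bd c) * Dd T e B * Ps T (bd c) = 0) (hfd : FDc T c) :
    FiniteDimensional ℝ (LinearMap.range (Dd T e B : Y →ₗ[ℝ] Y)) := by
  set p := Ps T (bd c) with hp
  haveI : FiniteDimensional ℝ (LinearMap.range ((1 - p : Y →L[ℝ] Y) : Y →ₗ[ℝ] Y)) := hfd
  set D := Dd T e B with hD
  have h1 : ∀ y, D y = (1 - p) (D y) + (p * D) ((1 - p) y) := by
    intro y
    have h2 : p (D (p y)) = 0 := DFunLike.congr_fun h y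
    show D y = (D y - p (D y)) + p (D (y - p y))
    rw [map_sub, map_sub, h2]
    abel
  have hle : LinearMap.range (D : Y →ₗ[ℝ] Y) ≤
      LinearMap.range ((1 - p : Y →L[ℝ] Y) : Y →ₗ[ℝ] Y) ⊔
      (LinearMap.range ((1 - p : Y →L[ℝ] Y) : Y →ₗ[ℝ] Y)).map ((p * D : Y →L[ℝ] Y) : Y →ₗ[ℝ] Y) := by
    rintro _ ⟨y, rfl⟩
    show D y ∈ _
    rw [h1 y]
    exact Submodule.add_mem_sup ⟨_, rfl⟩ ⟨_, ⟨y, rfl⟩, rfl⟩
  exact Submodule.finiteDimensional_of_le hle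

omit [CompleteSpace Y] in
lemma Ps_inv' {Z : Type*} [NormedAddCommGroup Z] [NormedSpace ℝ Z] (U : Z ≃ₗᵢ[ℝ] Z) (g : ℝ → ℝ) :
    Ps U⁻¹ g = Ps U g := by
  unfold Ps Fop
  rw [← (Equiv.neg ℤ).tsum_eq]
  refine tsum_congr (fun k => ?_)
  show cg g (-k) • op (U⁻¹ ^ (-k)) = _
  rw [cg_neg, inv_zpow, zpow_neg, inv_inv]

/-- operators almost commuting with `T` respect the parts of the space -/
lemma off_zero {c1 : ℝ} (hc1 : 0 < c1) : ∃ c2 : ℝ, 0 < c2 ∧ ∀ (T : Y ≃ₗᵢ[ℝ] Y) (B : Y →L[ℝ] Y),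
    Ps (Ad T) (bd c2) B = B → Ps T (bd c2) * B * (1 - Ps T (bd c1)) = 0 := by
  obtain ⟨c, hc, h⟩ := zero_of (Z := Y →L[ℝ] Y) (half_pos hc1)
  refine ⟨c / 2, half_pos hc, fun T B hB => ?_⟩
  have hcL : Commute (Ad T) (Lm T) := (Commute.refl (Lm T)).mul_left (LR_comm T T).symm
  have hcR : Commute (Ad T) (Rm T) := (LR_comm T T).mul_left (Commute.refl (Rm T))
  set p := Ps T (bd (c / 2)) with hp
  have hs : p * B * (1 - Ps T (bd c1)) =
      Ps (Lm T) (bd (c / 2)) (B - Ps (Rm T) (bd c1) B) := by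
    rw [Ps_Lm T (bd_contDiff _), Ps_Rm T (bd_contDiff _), mul_assoc, mul_sub B, mul_one]
  apply h (Lm T)⁻¹ (Ad T) (p * B * (1 - Ps T (bd c1)))
  · rw [Ps_inv', Ps_Lm T (bd_contDiff c), ← mul_assoc, ← mul_assoc, bd_bd' (half_pos hc) le_rfl T]
  · have h4 := cm_Ps hcL (bd_contDiff c) (bd_contDiff (c / 2))
    have h5 := cm_Ps hcR (bd_contDiff c) (bd_contDiff c1)
    have h10 : ∀ z, Ps (Ad T) (bd c) (Ps (Lm T) (bd (c / 2)) z) =
      Ps (Lm T) (bd (c / 2)) (Ps (Ad T) (bd c) z) := fun z => DFunLike.congr_fun h4 z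
    have h11 : ∀ z, Ps (Ad T) (bd c) (Ps (Rm T) (bd c1) z) =
      Ps (Rm T) (bd c1) (Ps (Ad T) (bd c) z) := fun z => DFunLike.congr_fun h5 z
    have h12 : Ps (Ad T) (bd c) B = B := by
      have h13 := DFunLike.congr_fun (bd_bd' (half_pos hc) le_rfl (Ad T)) B
      have h14 : Ps (Ad T) (bd c) (Ps (Ad T) (bd (c / 2)) B) = Ps (Ad T) (bd (c / 2)) B := h13
      rwa [hB] at h14
    rw [hs, h10, map_sub, h11, h12]
  · have h6 : (Lm T)⁻¹ * Ad T = Rm T := by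
      unfold Ad
      rw [← mul_assoc, inv_mul_cancel, one_mul]
    have h7 : (1 - Ps T (bd c1)) * Ps T (bd (c1 / 2)) = 0 := by
      rw [sub_mul, one_mul, bd_bd' (half_pos hc1) le_rfl T, sub_self]
    rw [h6, Ps_Rm T (bd_contDiff _), mul_assoc, h7, mul_zero]

lemma ne_of_norm {δ : ℝ} (hδ : 0 < δ) : ∃ c : ℝ, 0 < c ∧ ∀ T : Y ≃ₗᵢ[ℝ] Y, δ ≤ ‖op T - 1‖ →
    ∃ w, Ps T (bd c) w ≠ w := by
  obtain ⟨n, hn⟩ := exists_nat_gt (8 / δ)
  have hn0 : (0 : ℝ) < n := lt_trans (by positivity) hn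
  obtain ⟨d0, hd0, hd⟩ := Nn_small (Z := Y) (r := δ / (8 * n)) (by positivity)
  set c := min d0 1 / 2 with hc
  have hm : 0 < min d0 1 := lt_min hd0 one_pos
  have hc0 : 0 < c := by positivity
  have hcd : c < d0 := by
    have := min_le_left d0 1
    linarith
  have hc1 : c ≤ 1 := by
    have := min_le_right d0 1
    linarith
  refine ⟨c, hc0, fun T hT => ?_⟩
  by_contra hcon
  push Not at hcon
  have h1 : ‖op T - 1‖ ≤ δ / 2 := by
    refine ContinuousLinearMap.opNorm_le_bound _ (by positivity) (fun w => ?_)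
    show ‖T w - w‖ ≤ δ / 2 * ‖w‖
    have h2 := landau T w (hd c hc0 hcd hc1 T w (hcon w)) n
    have h3 : (n : ℝ) ^ 2 * (2 * (δ / (8 * n) * ‖w‖)) = n * (δ / 4 * ‖w‖) := by
      field_simp
      ring
    rw [h3] at h2
    have h4 : 2 * ‖w‖ ≤ n * (δ / 4 * ‖w‖) := by
      rw [div_lt_iff₀ hδ] at hn
      have := norm_nonneg w
      nlinarith
    have h5 : (n : ℝ) * ‖T w - w‖ ≤ n * (δ / 2 * ‖w‖) := by linarith
    exact le_of_mul_le_mul_left h5 hn0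
  linarith

/-- a skew operator and isometries which are almost compact perturbations of the identity -/
theorem paral_skew' (hE : ¬ FiniteDimensional ℝ Y)
    (htr : ∀ x y : Y, ‖x‖ = 1 → ‖y‖ = 1 → ∃ T : Y ≃ₗᵢ[ℝ] Y, T x = y)
    (T : ℕ → Y ≃ₗᵢ[ℝ] Y) {δ : ℝ} (hδ : 0 < δ) (hT1 : ∀ n, δ ≤ ‖op (T n) - 1‖)
    (hT : ∀ c : ℝ, 0 < c → ∀ᶠ n in atTop, FDc (T n) c)
    {B : Y →L[ℝ] Y} (hB : Sk B) (hB0 : B ∉ DD (⊤ : Subgroup (Y ≃ₗᵢ[ℝ] Y))) (x y : Y) :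
    ‖x + y‖ ^ 2 + ‖x - y‖ ^ 2 = 2 * ‖x‖ ^ 2 + 2 * ‖y‖ ^ 2 := by
  have hat : AT (⊤ : Subgroup (Y ≃ₗᵢ[ℝ] Y)) := by
    intro x y hx hy ε hε
    obtain ⟨T, hT⟩ := htr x y hx hy
    exact ⟨T, trivial, by rw [hT, sub_self, norm_zero]; exact hε⟩
  obtain ⟨c1, hc1, h1⟩ := ne_of_norm (Y := Y) hδ
  obtain ⟨c2, hc2, h2⟩ := off_zero (Y := Y) hc1
  obtain ⟨c3, hc3, h3⟩ := pDp' (Y := Y) hc2
  obtain ⟨n, hn2, hn3⟩ := ((hT c2 hc2).and (hT c3 hc3)).exists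
  obtain ⟨w, hw⟩ := h1 (T n) (hT1 n)
  by_cases hg : ∃ g : Y ≃ₗᵢ[ℝ] Y, Dd (T n) c2 (Ad g B) ≠ 0
  · obtain ⟨g, hg⟩ := hg
    obtain ⟨U, hU1, hU2⟩ := exists_fr ((hB.ad g).dd (T n) hc2) hg (Dd_fr' (h3 (T n) (Ad g B)) hn3)
    exact paral_fr hE htr U hU1 hU2 x y
  · exfalso
    push Not at hg
    have hz : ∀ g : Y ≃ₗᵢ[ℝ] Y, Ps (T n) (bd c2) * Ad g B * (1 - Ps (T n) (bd c1)) = 0 :=
      fun g => h2 (T n) (Ad g B) (sub_eq_zero.1 (hg g)).symm
    set q : Y →L[ℝ] Y := 1 - Ps (T n) (bd c1) with hq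
    set p : Y →L[ℝ] Y := Ps (T n) (bd c2) with hp
    have hqw : q w ≠ 0 := by
      intro h
      apply hw
      have : w - Ps (T n) (bd c1) w = 0 := h
      exact (sub_eq_zero.1 this).symm
    let M : Submodule ℝ (Y →L[ℝ] Y) := Submodule.span ℝ {a | ∃ g : Y ≃ₗᵢ[ℝ] Y, a = Ad g B}
    have hM1 : ∀ S ∈ (⊤ : Subgroup (Y ≃ₗᵢ[ℝ] Y)), ∀ a ∈ M, cj S a ∈ M := by
      intro S _ a ha
      have hle : M ≤ M.comap ((Ad S).toLinearEquiv : (Y →L[ℝ] Y) →ₗ[ℝ] (Y →L[ℝ] Y)) := by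
        rw [Submodule.span_le]
        rintro _ ⟨g, rfl⟩
        refine Submodule.subset_span ⟨S * g, ?_⟩
        show op S * (op g * (B * op g⁻¹) * op S⁻¹) = op (S * g) * (B * op (S * g)⁻¹)
        rw [mul_inv_rev, op_mul, op_mul]
        simp only [mul_assoc]
      have h1 := hle ha
      have h2 : cj S a = Ad S a := by
        ext v
        rfl
      rw [h2]
      exact h1
    have hM2 : ∀ a ∈ M, p * a * q = 0 := by
      intro a ha
      induction ha using Submodule.span_induction with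
      | mem a ha =>
        obtain ⟨g, rfl⟩ := ha
        exact hz g
      | zero => rw [mul_zero, zero_mul]
      | add a b _ _ ha hb => rw [mul_add, add_mul, ha, hb, add_zero]
      | smul r a _ ha => rw [mul_smul_comm, smul_mul_assoc, ha, smul_zero]
    have hM3 : ∀ a ∈ M, a (q w) ∈ LinearMap.range ((1 - p : Y →L[ℝ] Y) : Y →ₗ[ℝ] Y) := by
      intro a ha
      have h1 : p (a (q w)) = 0 := DFunLike.congr_fun (hM2 a ha) w
      refine ⟨a (q w), ?_⟩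
      show a (q w) - p (a (q w)) = a (q w)
      rw [h1, sub_zero]
    have hBM : B ∈ M := by
      refine Submodule.subset_span ⟨1, ?_⟩
      ext v
      rfl
    exact hB0 (pt_op hE hat hM1 hqw hn2 hM3 hBM)

end Pool.Agent.U559.CQ
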