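import Pool.Agent.U559.CQ.Lift

/-!
# Small isometries when all their blow-ups are scalar
-/

set_option autoImplicit false
set_option linter.unusedSectionVars false
set_option linter.style.haveILetI false

namespace Pool.Agent.U559.CQ

open Filter Topology BoundedContinuousFunction Pool.Agent.U234.KM Pool.H590R3.Ab
  Pool.Agent.TH596.RO Pool.Agent.U559.CP

variable {E : Type*} [NormedAddCommGroup E] [NormedSpace ℝ E]

variable (E) in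
/-- all blow-ups of small isometries are in `DD` of the ultrapower -/
def Tame : Prop :=
  ∀ (g : ℕ → E ≃ₗᵢ[ℝ] E) (t : ℕ → ℝ), (∀ n, 0 < t n) → Tendsto t atTop (𝓝 0) →
    (∀ n, ‖op (g n) - 1‖ ≤ t n) →
    ∀ hB1 : ∀ n, ‖(t n)⁻¹ • (op (g n) - 1 : E →L[ℝ] E)‖ ≤ 1,
    OX (fun n => (t n)⁻¹ • (op (g n) - 1 : E →L[ℝ] E)) hB1 ∈ DD (⊤ : Subgroup (X E ≃ₗᵢ[ℝ] X E))

lemma OX_norm_le (B : ℕ → E →L[ℝ] E) (hB : ∀ n, ‖B n‖ ≤ 1) : ‖OX B hB‖ ≤ 1 :=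
  LinearMap.mkContinuous_norm_le _ zero_le_one _

lemma OX_sub_ge (A B : ℕ → E →L[ℝ] E) (hA : ∀ n, ‖A n‖ ≤ 1) (hB : ∀ n, ‖B n‖ ≤ 1)
    (h : ∀ n, 1 / 2 < ‖A n - B n‖) : 1 / 2 ≤ ‖OX A hA - OX B hB‖ := by
  have h1 : ∀ n, ∃ x : E, ‖x‖ < 1 ∧ 1 / 2 < ‖(A n - B n) x‖ := fun n =>
    (A n - B n).exists_lt_apply_of_lt_opNorm (h n)
  choose u hu1 hu2 using h1
  set v : ℕ →ᵇ E := mkB u 1 fun n => (hu1 n).le with hv
  have h2 : (OX A hA - OX B hB) (cl v) = cl (OB A hA v - OB B hB v) := rfl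
  have h3 : (1 / 2 : ℝ) ≤ ‖cl (OB A hA v - OB B hB v)‖ :=
    ge_of_tendsto' (tendsto_norm _) fun n => (hu2 n).le
  have h4 : ‖cl v‖ ≤ 1 := le_of_tendsto' (tendsto_norm v) fun n => (hu1 n).le
  have h5 := (OX A hA - OX B hB).le_opNorm (cl v)
  rw [h2] at h5
  have h7 : 0 ≤ ‖OX A hA - OX B hB‖ := norm_nonneg (OX A hA - OX B hB)
  have h6 : ‖OX A hA - OX B hB‖ * ‖cl v‖ ≤ ‖OX A hA - OX B hB‖ :=
    mul_le_of_le_one_right h7 h4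
  linarith

lemma pigeon {V : Type*} [NormedAddCommGroup V] [NormedSpace ℝ V] (D : Submodule ℝ V)
    (hfd : FiniteDimensional ℝ D) : ∃ N : ℕ, ∀ a : Fin N → V, (∀ i, a i ∈ D) → (∀ i, ‖a i‖ ≤ 1) →
      ∃ i j, i ≠ j ∧ ‖a i - a j‖ < 1 / 2 := by
  classical
  haveI : ProperSpace D := FiniteDimensional.proper ℝ D
  obtain ⟨s, hs, hcov⟩ := Metric.totallyBounded_iff.1
    (isCompact_closedBall (0 : D) 1).totallyBounded (1 / 8) (by norm_num)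
  refine ⟨hs.toFinset.card + 1, fun b hb hb1 => ?_⟩
  let a : Fin (hs.toFinset.card + 1) → D := fun i => ⟨b i, hb i⟩
  have hy : ∀ i, ∃ y ∈ s, ‖a i - y‖ < 1 / 8 := by
    intro i
    have h1 : a i ∈ Metric.closedBall (0 : D) 1 := by
      rw [mem_closedBall_zero_iff]
      exact hb1 i
    obtain ⟨y, hy, hay⟩ := Set.mem_iUnion₂.1 (hcov h1)
    rw [Metric.mem_ball, dist_eq_norm] at hay
    exact ⟨y, hy, hay⟩
  choose y hys hay using hy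
  let φ : Fin (hs.toFinset.card + 1) → hs.toFinset := fun i => ⟨y i, hs.mem_toFinset.2 (hys i)⟩
  obtain ⟨i, j, hij, hφ⟩ := Fintype.exists_ne_map_eq_of_card_lt φ (by
    rw [Fintype.card_coe, Fintype.card_fin]
    exact Nat.lt_succ_self _)
  have hyy : y i = y j := congrArg Subtype.val hφ
  refine ⟨i, j, hij, ?_⟩
  have e1 : a i - a j = (a i - y i) - (a j - y j) := by rw [hyy]; abel
  have h1 : ‖a i - a j‖ < 1 / 2 := by
    rw [e1]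
    refine (norm_sub_le _ _).trans_lt ?_
    have := hay i
    have := hay j
    linarith
  exact h1

lemma sep_bound [CompleteSpace E] (hE : ¬ FiniteDimensional ℝ E)
    (htr : ∀ x y : E, ‖x‖ = 1 → ‖y‖ = 1 → ∀ ε : ℝ, 0 < ε → ∃ T : E ≃ₗᵢ[ℝ] E, ‖T x - y‖ < ε)
    (h : Tame E) : ∃ (N : ℕ) (t0 : ℝ), 0 < t0 ∧ ∀ t : ℝ, 0 < t → t ≤ t0 →
      ∀ c : Fin N → E ≃ₗᵢ[ℝ] E, (∀ i, ‖op (c i) - 1‖ ≤ t) →
        ∃ i j, i ≠ j ∧ ‖op (c i) - op (c j)‖ ≤ t / 2 := by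
  classical
  haveI : Nontrivial E := nontriv hE
  obtain ⟨e, he⟩ : ∃ e : E, ‖e‖ = 1 := exists_norm_eq E zero_le_one
  have hXE : ¬ FiniteDimensional ℝ (X E) := by
    intro h
    exact hE (FiniteDimensional.of_injective (io (E := E)).toLinearMap (io (E := E)).injective)
  have hat : AT (⊤ : Subgroup (X E ≃ₗᵢ[ℝ] X E)) := by
    intro x y hx hy ε hε
    obtain ⟨T, hT⟩ := tr_X he htr x y hx hy
    exact ⟨T, trivial, by rw [hT, sub_self, norm_zero]; exact hε⟩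
  have hfd : FiniteDimensional ℝ (DD (⊤ : Subgroup (X E ≃ₗᵢ[ℝ] X E))) := tri_fd (core_DD hXE hat).1
  obtain ⟨N, hN⟩ := pigeon (V := X E →L[ℝ] X E)
    (Subalgebra.toSubmodule (DD (⊤ : Subgroup (X E ≃ₗᵢ[ℝ] X E)))) hfd
  refine ⟨N, ?_⟩
  by_contra hcon
  push Not at hcon
  choose t ht0 ht1 c hc1 hc2 using fun n : ℕ => hcon (1 / ((n : ℝ) + 1)) (by positivity)
  have htt : Tendsto t atTop (𝓝 0) :=
    squeeze_zero (fun n => (ht0 n).le) ht1 (tendsto_one_div_add_atTop_nhds_zero_nat (𝕜 := ℝ))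
  have hB : ∀ i n, ‖(t n)⁻¹ • (op (c n i) - 1 : E →L[ℝ] E)‖ ≤ 1 := by
    intro i n
    rw [norm_smul, norm_inv, Real.norm_of_nonneg (ht0 n).le, inv_mul_le_iff₀ (ht0 n), mul_one]
    exact hc1 n i
  obtain ⟨i, j, hij, h1⟩ := hN (fun i => OX (fun n => (t n)⁻¹ • (op (c n i) - 1 : E →L[ℝ] E)) (hB i))
    (fun i => h (fun n => c n i) t ht0 htt (fun n => hc1 n i) (hB i)) (fun i => OX_norm_le _ (hB i))
  have h2 := OX_sub_ge _ _ (hB i) (hB j) (fun n => by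
    rw [← smul_sub, norm_smul, norm_inv, Real.norm_of_nonneg (ht0 n).le, inv_mul_eq_div,
      lt_div_iff₀ (ht0 n)]
    have h3 := hc2 n i j hij
    have e1 : (op (c n i) - 1 : E →L[ℝ] E) - (op (c n j) - 1) = op (c n i) - op (c n j) := by abel
    rw [e1]
    linarith)
  linarith

lemma max_fam {N : ℕ} {t : ℝ} (h : ∀ c : Fin N → E ≃ₗᵢ[ℝ] E, (∀ i, ‖op (c i) - 1‖ ≤ t) →
        ∃ i j, i ≠ j ∧ ‖op (c i) - op (c j)‖ ≤ t / 2) :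
    ∃ M : Set (E ≃ₗᵢ[ℝ] E), M.Finite ∧ ∀ c : E ≃ₗᵢ[ℝ] E, ‖op c - 1‖ ≤ t →
      ∃ m ∈ M, ‖op c - op m‖ ≤ t / 2 := by
  classical
  let P : ℕ → Prop := fun m => ∃ f : Fin m → E ≃ₗᵢ[ℝ] E, (∀ i, ‖op (f i) - 1‖ ≤ t) ∧
    ∀ i j, i ≠ j → t / 2 < ‖op (f i) - op (f j)‖
  have h0 : P 0 := ⟨fun i => i.elim0, fun i => i.elim0, fun i => i.elim0⟩
  have hN : ¬ P N := by
    rintro ⟨f, hf1, hf2⟩
    obtain ⟨i, j, hij, hle⟩ := h f hf1
    exact absurd (hf2 i j hij) (not_lt.2 hle)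
  obtain ⟨m, hm, hm1⟩ : ∃ m, P m ∧ ¬ P (m + 1) := by
    by_contra hcon
    push Not at hcon
    exact hN (Nat.rec h0 (fun k hk => hcon k hk) N)
  obtain ⟨f, hf1, hf2⟩ := hm
  refine ⟨Set.range f, Set.finite_range f, fun c hc => ?_⟩
  by_contra hcon
  push Not at hcon
  apply hm1
  refine ⟨Fin.cons c f, fun i => ?_, fun i j hij => ?_⟩
  · refine Fin.cases ?_ (fun k => ?_) i
    · rw [Fin.cons_zero]
      exact hc
    · rw [Fin.cons_succ]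
      exact hf1 k
  · revert hij
    refine Fin.cases ?_ (fun k => ?_) i <;> refine Fin.cases ?_ (fun l => ?_) j
    · intro hij
      exact absurd rfl hij
    · intro _
      rw [Fin.cons_zero, Fin.cons_succ]
      exact hcon _ ⟨l, rfl⟩
    · intro _
      rw [Fin.cons_zero, Fin.cons_succ, norm_sub_rev]
      exact hcon _ ⟨k, rfl⟩
    · intro hij
      rw [Fin.cons_succ, Fin.cons_succ]
      exact hf2 k l (fun h => hij (by rw [h]))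

lemma cover {N : ℕ} {t0 : ℝ} (h0 : 0 < t0) (h : ∀ t : ℝ, 0 < t → t ≤ t0 →
      ∀ c : Fin N → E ≃ₗᵢ[ℝ] E, (∀ i, ‖op (c i) - 1‖ ≤ t) →
        ∃ i j, i ≠ j ∧ ‖op (c i) - op (c j)‖ ≤ t / 2) (k : ℕ) :
    ∃ M : Set (E ≃ₗᵢ[ℝ] E), M.Finite ∧ ∀ c : E ≃ₗᵢ[ℝ] E, ‖op c - 1‖ ≤ t0 →
      ∃ m ∈ M, ‖op c - op m‖ ≤ t0 / 2 ^ k := by
  induction k with
  | zero =>
    refine ⟨{1}, Set.finite_singleton _, fun c hc => ⟨1, rfl, ?_⟩⟩
    rw [pow_zero, div_one, op_one]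
    exact hc
  | succ k ih =>
    obtain ⟨M, hM1, hM2⟩ := ih
    obtain ⟨M', hM1', hM2'⟩ := max_fam (t := t0 / 2 ^ k) (h (t0 / 2 ^ k) (by positivity)
      (div_le_self h0.le (one_le_pow₀ one_le_two)))
    refine ⟨Set.image2 (fun a b => a * b) M M', hM1.image2 _ hM1', fun c hc => ?_⟩
    obtain ⟨m, hm, hcm⟩ := hM2 c hc
    have h1 : ‖op (m⁻¹ * c) - 1‖ ≤ t0 / 2 ^ k := by
      have e1 : op (m⁻¹ * c) - 1 = op m⁻¹ * (op c - op m) := by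
        rw [mul_sub, ← op_mul, ← op_mul, inv_mul_cancel, op_one]
      rw [e1, norm_op_mul]
      exact hcm
    obtain ⟨m', hm', hcm'⟩ := hM2' _ h1
    refine ⟨m * m', ⟨m, hm, m', hm', rfl⟩, ?_⟩
    have e2 : op c - op (m * m') = op m * (op (m⁻¹ * c) - op m') := by
      rw [mul_sub, ← op_mul, ← op_mul, mul_inv_cancel_left]
    rw [e2, norm_op_mul]
    refine hcm'.trans (le_of_eq ?_)
    rw [pow_succ]
    field_simp

/-- small isometries are in `DD` -/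
theorem tame_small [CompleteSpace E] (hE : ¬ FiniteDimensional ℝ E)
    (htr : ∀ x y : E, ‖x‖ = 1 → ‖y‖ = 1 → ∀ ε : ℝ, 0 < ε → ∃ T : E ≃ₗᵢ[ℝ] E, ‖T x - y‖ < ε)
    (h : Tame E) : ∃ r : ℝ, 0 < r ∧ ∀ c : E ≃ₗᵢ[ℝ] E, ‖op c - 1‖ ≤ r →
      op c ∈ DD (⊤ : Subgroup (E ≃ₗᵢ[ℝ] E)) := by
  have hat : AT (⊤ : Subgroup (E ≃ₗᵢ[ℝ] E)) := by
    intro x y hx hy ε hε
    obtain ⟨T, hT⟩ := htr x y hx hy ε hε
    exact ⟨T, trivial, hT⟩
  obtain ⟨N, t0, ht0, hN⟩ := sep_bound hE htr h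
  refine ⟨t0, ht0, fun c hc => ap_op hE hat ?_⟩
  have htb : TotallyBounded {a : E →L[ℝ] E | ∃ c : E ≃ₗᵢ[ℝ] E, ‖op c - 1‖ ≤ t0 ∧ a = op c} := by
    rw [Metric.totallyBounded_iff]
    intro ε hε
    obtain ⟨k, hk⟩ : ∃ k : ℕ, t0 / 2 ^ k < ε := by
      obtain ⟨k, hk⟩ := exists_pow_lt_of_lt_one (div_pos hε ht0) (one_half_lt_one (α := ℝ))
      refine ⟨k, ?_⟩
      rw [lt_div_iff₀ ht0] at hk
      rw [one_div, inv_pow] at hk
      rw [div_eq_inv_mul]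
      exact hk
    obtain ⟨M, hM1, hM2⟩ := cover ht0 hN k
    refine ⟨op '' M, hM1.image _, ?_⟩
    rintro _ ⟨c, hc, rfl⟩
    obtain ⟨m, hm, hcm⟩ := hM2 c hc
    refine Set.mem_iUnion₂.2 ⟨op m, ⟨m, hm, rfl⟩, ?_⟩
    rw [Metric.mem_ball, dist_eq_norm]
    exact hcm.trans_lt hk
  refine htb.subset ?_
  rintro _ ⟨T, _, rfl⟩
  refine ⟨T * c * T⁻¹, ?_, rfl⟩
  have e1 : op (T * c * T⁻¹) - 1 = op T * (op c - 1) * op T⁻¹ := by
    rw [op_mul, op_mul, mul_sub, sub_mul, mul_one, ← op_mul T T⁻¹, mul_inv_cancel, op_one]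
  rw [e1, norm_mul_op, norm_op_mul]
  exact hc

end Pool.Agent.U559.CQ
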