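import Pool.Agent.U559.CQ.Cent

/-!
# Almost compact perturbations of the identity when small isometries are in `DD`
-/

set_option autoImplicit false
set_option linter.unusedSectionVars false
set_option linter.style.haveILetI false

namespace Pool.Agent.U559.CQ

open Filter Topology Pool.H590R3.Ab Pool.Agent.TH596.RO Pool.Agent.U559.CP

variable {E : Type*} [NormedAddCommGroup E] [NormedSpace ℝ E]

lemma op_inj {a b : E ≃ₗᵢ[ℝ] E} (h : op a = op b) : a = b := by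
  ext z
  exact DFunLike.congr_fun h z

lemma exists_net' {T : E ≃ₗᵢ[ℝ] E} {ρ : ℝ} (hT : Nc ρ (op T - 1 : E →L[ℝ] E)) {η : ℝ} (hη : 0 < η) :
    ∃ (m : ℕ) (f : Fin m → E) (r : ℝ), 0 < r ∧
      ∀ g : E ≃ₗᵢ[ℝ] E, (∀ i, ‖g (f i) - f i‖ ≤ r) → Nr (op T - 1 : E →L[ℝ] E) (η + 2 * ρ) g := by
  obtain ⟨K, hK, hKa⟩ := hT
  obtain ⟨m, f, r, hr, h⟩ := exists_net hK hη
  refine ⟨m, f, r, hr, fun g hg x hx => ?_⟩
  have h1 := h g hg x hx
  set v := (op T - 1 - K : E →L[ℝ] E) x with hv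
  have h2 : ‖v‖ ≤ ρ := by
    have h3 := (op T - 1 - K : E →L[ℝ] E).le_opNorm x
    have h4 : 0 ≤ ‖(op T - 1 - K : E →L[ℝ] E)‖ := norm_nonneg _
    nlinarith [norm_nonneg x]
  have h3 : (op T - 1 : E →L[ℝ] E) x = K x + v := by
    rw [hv]
    show _ = K x + ((op T - 1 : E →L[ℝ] E) x - K x)
    abel
  have h4 : g (K x + v) - (K x + v) = (g (K x) - K x) + (g v - v) := by
    rw [map_add]
    abel
  rw [h3, h4]
  refine (norm_add_le _ _).trans ?_
  have h5 := norm_sub_le (g v) v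
  rw [g.norm_map] at h5
  linarith

lemma pow_one_of {c : E ≃ₗᵢ[ℝ] E} (h : ∀ k : ℕ, ‖op (c ^ k) - 1‖ ≤ 1 / 2) : c = 1 := by
  by_contra hc
  have ha : 0 < ‖op c - 1‖ := by
    rw [norm_pos_iff]
    intro h0
    exact hc (eq_one_of_norm h0)
  have key : ∀ m : ℕ, (3 / 2 : ℝ) ^ m * ‖op c - 1‖ ≤ ‖op (c ^ (2 ^ m)) - 1‖ := by
    intro m
    induction m with
    | zero => simp
    | succ m ih =>
      set x : E →L[ℝ] E := op (c ^ (2 ^ m)) with hx
      have h1 : op (c ^ (2 ^ (m + 1))) = x * x := by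
        rw [pow_succ, pow_mul, sq, op_mul]
      have h2 : (2 : ℝ) • (x - 1) = (x * x - 1) - (x - 1) * (x - 1) := by
        rw [two_smul]
        noncomm_ring
      have h3 : 2 * ‖x - 1‖ ≤ ‖x * x - 1‖ + ‖x - 1‖ * ‖x - 1‖ := by
        calc 2 * ‖x - 1‖ = ‖(2 : ℝ) • (x - 1)‖ := by
              rw [norm_smul, Real.norm_of_nonneg (by norm_num : (0:ℝ) ≤ 2)]
          _ ≤ ‖x * x - 1‖ + ‖(x - 1) * (x - 1)‖ := by
              rw [h2]
              exact norm_sub_le _ _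
          _ ≤ _ := by
              have := norm_mul_le (x - 1) (x - 1)
              linarith
      have h4 := h (2 ^ m)
      rw [← hx] at h4
      rw [h1, pow_succ]
      nlinarith [norm_nonneg (x - 1)]
  obtain ⟨m, hm⟩ := pow_unbounded_of_one_lt (1 / ‖op c - 1‖) (by norm_num : (1:ℝ) < 3 / 2)
  have h1 := key m
  have h2 := h (2 ^ m)
  rw [div_lt_iff₀ ha] at hm
  linarith

/-- commutators of commutators -/
lemma cm_comm2 [CompleteSpace E] (hE : ¬ FiniteDimensional ℝ E)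
    (hat : AT (⊤ : Subgroup (E ≃ₗᵢ[ℝ] E))) {r : ℝ}
    (hsm : ∀ c : E ≃ₗᵢ[ℝ] E, ‖op c - 1‖ ≤ r → op c ∈ DD (⊤ : Subgroup (E ≃ₗᵢ[ℝ] E)))
    {S : E ≃ₗᵢ[ℝ] E} (hS : ∀ d ∈ DD (⊤ : Subgroup (E ≃ₗᵢ[ℝ] E)), op S * d = d * op S)
    {ρ : ℝ} (hSc : Nc ρ (op S - 1 : E →L[ℝ] E)) (hρ : 4 * ρ ≤ 1 / 2)
    {η : ℝ} (hη : 0 ≤ η) (hη1 : η ≤ 1) (hηr : 26 * η ≤ r) {g h : E ≃ₗᵢ[ℝ] E}
    (hg : Nr (op S - 1 : E →L[ℝ] E) η g) (hh : Nr (op S - 1 : E →L[ℝ] E) η h) :
    Commute (cm S g) (cm S h) := by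
  have hcomm : ∀ c : E ≃ₗᵢ[ℝ] E, op c ∈ DD (⊤ : Subgroup (E ≃ₗᵢ[ℝ] E)) →
      ∀ u : E ≃ₗᵢ[ℝ] E, Commute (cm S u) c := by
    intro c hc u
    have h1 : Commute S c := op_inj (by rw [op_mul, op_mul]; exact hS _ hc)
    have h2 : Commute S (u⁻¹ * c * u) := by
      apply op_inj
      rw [op_mul S, op_mul _ S]
      apply hS
      have h3 := DD_inv (Subgroup.mem_top u⁻¹) hc
      rw [cj_op, inv_inv] at h3
      exact h3
    have h3 : Commute (u * S * u⁻¹) c := by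
      have h4 := h2.eq
      show u * S * u⁻¹ * c = c * (u * S * u⁻¹)
      calc u * S * u⁻¹ * c = u * (S * (u⁻¹ * c * u)) * u⁻¹ := by group
        _ = u * (u⁻¹ * c * u * S) * u⁻¹ := by rw [h4]
        _ = _ := by group
    exact h3.mul_left h1.inv_left
  set a := cm S g with ha
  set b := cm S h with hb
  set c := a * b * (b * a)⁻¹ with hc
  have h2 : op c - 1 = ((op a - 1) * (op b - 1) - (op b - 1) * (op a - 1)) * op (b * a)⁻¹ := by
    have e1 : (1 : E →L[ℝ] E) = op (b * a) * op (b * a)⁻¹ := by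
      rw [← op_mul, mul_inv_cancel, op_one]
    rw [hc, op_mul]
    calc op (a * b) * op (b * a)⁻¹ - 1 = op (a * b) * op (b * a)⁻¹ - op (b * a) * op (b * a)⁻¹ := by
          rw [← e1]
      _ = _ := by
          rw [← sub_mul, op_mul, op_mul]
          congr 1
          noncomm_ring
  have h3 : ‖op c - 1‖ ≤ r := by
    rw [h2, norm_mul_op]
    refine (norm_sub_le _ _).trans ?_
    have m1 := mul_cm hη hη1 hg hh
    have m2 := mul_cm hη hη1 hh hg
    linarith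
  have hcD := hsm c h3
  have hca : Commute a c := hcomm c hcD g
  have hcb : c * b * a = a * b := by
    rw [hc]
    group
  have hpow : ∀ k : ℕ, a ^ k * b = c ^ k * b * a ^ k := by
    intro k
    induction k with
    | zero => simp
    | succ k ih =>
      have h5 : a * c ^ k = c ^ k * a := (hca.pow_right k).eq
      calc a ^ (k + 1) * b = a * (a ^ k * b) := by rw [pow_succ', mul_assoc]
        _ = a * c ^ k * b * a ^ k := by rw [ih]; simp only [mul_assoc]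
        _ = c ^ k * (a * b) * a ^ k := by rw [h5]; simp only [mul_assoc]
        _ = c ^ k * (c * b * a) * a ^ k := by rw [hcb]
        _ = _ := by
          rw [pow_succ c, pow_succ' a]
          simp only [mul_assoc]
  have hbN : Nc (ρ + ρ) (op b - 1 : E →L[ℝ] E) := by
    have h6 : op b - 1 = op h * (op S - 1) * op (h⁻¹ * S⁻¹) + (op S⁻¹ - 1) := by
      have e1 : op h * op h⁻¹ = 1 := by rw [← op_mul, mul_inv_cancel, op_one]
      have e2 : op b = op h * op S * op h⁻¹ * op S⁻¹ := by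
        rw [hb]
        unfold cm
        rw [op_mul, op_mul, op_mul]
      calc op b - 1 = op h * op S * op h⁻¹ * op S⁻¹ - (op h * op h⁻¹) * op S⁻¹ + op S⁻¹ - 1 := by
            rw [e2, e1, one_mul]
            abel
        _ = _ := by
            rw [op_mul]
            noncomm_ring
    rw [h6]
    exact ((hSc.op_left h).op_right _).add hSc.inv
  have hcN : ∀ k : ℕ, Nc (4 * ρ) (op (c ^ k) - 1 : E →L[ℝ] E) := by
    intro k
    have h7 : c ^ k = a ^ k * b * (a ^ k)⁻¹ * b⁻¹ := by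
      rw [hpow k]
      group
    have e1 : op (a ^ k) * op (a ^ k)⁻¹ = 1 := by rw [← op_mul, mul_inv_cancel, op_one]
    have h8 : op (c ^ k) - 1 = op (a ^ k) * (op b - 1) * op ((a ^ k)⁻¹ * b⁻¹) + (op b⁻¹ - 1) := by
      rw [h7]
      calc op (a ^ k * b * (a ^ k)⁻¹ * b⁻¹) - 1
          = op (a ^ k) * op b * op (a ^ k)⁻¹ * op b⁻¹ - (op (a ^ k) * op (a ^ k)⁻¹) * op b⁻¹ +
            op b⁻¹ - 1 := by
            rw [e1, one_mul, op_mul, op_mul, op_mul]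
            abel
        _ = _ := by
            rw [op_mul (a ^ k)⁻¹]
            noncomm_ring
    rw [h8]
    refine Nc.mono ?_ (((hbN.op_left (a ^ k)).op_right _).add hbN.inv)
    linarith
  have hcDk : ∀ k : ℕ, op (c ^ k) ∈ DD (⊤ : Subgroup (E ≃ₗᵢ[ℝ] E)) := by
    intro k
    induction k with
    | zero =>
      rw [pow_zero, op_one]
      exact Subalgebra.one_mem _
    | succ k ih =>
      rw [pow_succ, op_mul]
      exact Subalgebra.mul_mem _ ih hcD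
  have hc1 : c = 1 := pow_one_of fun k =>
    (norm_DD hE hat (Subalgebra.sub_mem _ (hcDk k) (Subalgebra.one_mem _)) (hcN k)).trans hρ
  show a * b = b * a
  exact mul_inv_eq_one.1 hc1

/-- isometries which are almost compact perturbations of the identity are close to the identity -/
theorem near_small [CompleteSpace E] [TopologicalSpace.SeparableSpace E]
    (hE : ¬ FiniteDimensional ℝ E)
    (htr : ∀ x y : E, ‖x‖ = 1 → ‖y‖ = 1 → ∃ T : E ≃ₗᵢ[ℝ] E, T x = y) {r : ℝ} (hr : 0 < r)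
    (hsm : ∀ c : E ≃ₗᵢ[ℝ] E, ‖op c - 1‖ ≤ r → op c ∈ DD (⊤ : Subgroup (E ≃ₗᵢ[ℝ] E)))
    {T : E ≃ₗᵢ[ℝ] E} {ρ : ℝ} (hρ1 : ρ ≤ 1 / 160) (hρ2 : ρ ≤ r / 2000)
    (hT : Nc ρ (op T - 1 : E →L[ℝ] E)) : ‖op T - 1‖ ≤ ρ := by
  have hat : AT (⊤ : Subgroup (E ≃ₗᵢ[ℝ] E)) := by
    intro x y hx hy ε hε
    obtain ⟨T, hT⟩ := htr x y hx hy
    exact ⟨T, trivial, by rw [hT, sub_self, norm_zero]; exact hε⟩
  have htr' : ∀ x y : E, ‖x‖ = 1 → ‖y‖ = 1 → ∃ T ∈ (⊤ : Subgroup (E ≃ₗᵢ[ℝ] E)), T x = y := by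
    intro x y hx hy
    obtain ⟨T, hT⟩ := htr x y hx hy
    exact ⟨T, trivial, hT⟩
  have hρ0 : 0 ≤ ρ := by
    obtain ⟨K, _, hK⟩ := hT
    exact (norm_nonneg _).trans hK
  obtain ⟨U, hU1, hU2, hU3⟩ := centr hE hat (by linarith) hT
  set S := T⁻¹ * U with hS
  have hSN : Nc (5 * ρ) (op S - 1 : E →L[ℝ] E) := by
    have h1 : op S - 1 = op T⁻¹ * (op U - 1) + (op T⁻¹ - 1) := by
      rw [hS, op_mul, mul_sub, mul_one]
      abel
    have h2 : Nc (4 * ρ) (op T⁻¹ * (op U - 1) : E →L[ℝ] E) := by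
      refine ⟨0, isCompactOperator_zero, ?_⟩
      rw [sub_zero, norm_op_mul]
      exact hU2
    rw [h1]
    refine Nc.mono ?_ (h2.add hT.inv)
    linarith
  set η : ℝ := min (1 / 8) (r / 200) with hη
  have hη0 : 0 < η := by positivity
  have hη1 : η ≤ 1 / 8 := min_le_left _ _
  have hη2 : η ≤ r / 200 := min_le_right _ _
  obtain ⟨m, f, r', hr', hf⟩ := exists_net' hSN hη0
  set η0 : ℝ := η + 2 * (5 * ρ) with hη0d
  have hη00 : 0 ≤ η0 := by positivity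
  have hcomm : ∀ g h : E ≃ₗᵢ[ℝ] E, Nr (op S - 1 : E →L[ℝ] E) (η0 + η0) g →
      Nr (op S - 1 : E →L[ℝ] E) (η0 + η0) h → Commute (cm S g) (cm S h) := fun g h hg hh =>
    cm_comm2 hE hat hsm hU3 hSN (by linarith) (by linarith) (by linarith) (by linarith) hg hh
  have hcm : ∀ g : E ≃ₗᵢ[ℝ] E, (∀ i, ‖g (f i) - f i‖ ≤ r') →
      op (cm S g) ∈ DD (⊤ : Subgroup (E ≃ₗᵢ[ℝ] E)) := by
    intro g hg
    refine loc_single hE htr' (cm S g) f hr' (fun u _ hu => ?_)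
    have h1 : Nr (op S - 1 : E →L[ℝ] E) (η0 + η0) (u * g) := (hf u hu).mul (hf g hg)
    have h2 : Nr (op S - 1 : E →L[ℝ] E) (η0 + η0) g := (hf g hg).mono (by linarith)
    have h3 : Nr (op S - 1 : E →L[ℝ] E) (η0 + η0) u := (hf u hu).mono (by linarith)
    have c1 := hcomm _ _ h1 h2
    have c2 := hcomm _ _ h3 h2
    have e1 : u * cm S g * u⁻¹ = cm S (u * g) * (cm S u)⁻¹ := by
      unfold cm
      group
    rw [e1]
    exact (c1.mul_left c2.inv_left).eq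
  have hfd : FiniteDimensional ℝ (DD (⊤ : Subgroup (E ≃ₗᵢ[ℝ] E))) := tri_fd (core_DD hE hat).1
  let R : (E →L[ℝ] E) →ₗ[ℝ] (E →L[ℝ] E) := LinearMap.mulRight ℝ (op S)
  haveI : FiniteDimensional ℝ (Subalgebra.toSubmodule (DD (⊤ : Subgroup (E ≃ₗᵢ[ℝ] E)))) := hfd
  have hSD : op S ∈ DD (⊤ : Subgroup (E ≃ₗᵢ[ℝ] E)) := by
    refine near_DD hE htr' f hr'
      (F := (Subalgebra.toSubmodule (DD (⊤ : Subgroup (E ≃ₗᵢ[ℝ] E)))).map R) inferInstance
      fun g _ hg => ?_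
    refine ⟨op (cm S g), hcm g hg, ?_⟩
    show op (cm S g) * op S = cj g (op S)
    rw [cj_op, ← op_mul]
    congr 1
    unfold cm
    group
  have hTD : op T⁻¹ ∈ DD (⊤ : Subgroup (E ≃ₗᵢ[ℝ] E)) := by
    have h1 : op T⁻¹ = op S * op U⁻¹ := by
      rw [← op_mul, hS, mul_inv_cancel_right]
    rw [h1]
    exact Subalgebra.mul_mem _ hSD hU1
  rw [← norm_inv_eq]
  exact norm_DD hE hat (Subalgebra.sub_mem _ hTD (Subalgebra.one_mem _)) hT.inv

end Pool.Agent.U559.CQ
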