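import Pool.Agent.U559.CQ.Core

/-!
# Almost compact operators and the ultrapower
-/

set_option autoImplicit false
set_option linter.unusedSectionVars false
set_option linter.style.haveILetI false

namespace Pool.Agent.U559.CQ

open Filter Topology BoundedContinuousFunction Pool.Agent.U234.KM Pool.H590R3.Ab
  Pool.Agent.TH596.RO Pool.Agent.U559.CP

variable {E : Type*} [NormedAddCommGroup E] [NormedSpace ℝ E]

/-- at distance at most `ρ` from a compact operator -/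
def Nc (ρ : ℝ) (A : E →L[ℝ] E) : Prop := ∃ K : E →L[ℝ] E, IsCompactOperator K ∧ ‖A - K‖ ≤ ρ

lemma Nc.mono {a b : ℝ} (hab : a ≤ b) {A : E →L[ℝ] E} (h : Nc a A) : Nc b A := by
  obtain ⟨K, h1, h2⟩ := h
  exact ⟨K, h1, h2.trans hab⟩

lemma Nc.add {a b : ℝ} {A B : E →L[ℝ] E} (h : Nc a A) (h' : Nc b B) : Nc (a + b) (A + B) := by
  obtain ⟨K, h1, h2⟩ := h
  obtain ⟨L, h3, h4⟩ := h'
  refine ⟨K + L, h1.add h3, ?_⟩
  have e : A + B - (K + L) = (A - K) + (B - L) := by abel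
  rw [e]
  exact (norm_add_le _ _).trans (add_le_add h2 h4)

lemma Nc.neg {a : ℝ} {A : E →L[ℝ] E} (h : Nc a A) : Nc a (-A) := by
  obtain ⟨K, h1, h2⟩ := h
  refine ⟨-K, h1.neg, ?_⟩
  have e : -A - -K = -(A - K) := by abel
  rw [e, norm_neg]
  exact h2

lemma Nc.smul {a : ℝ} {A : E →L[ℝ] E} (h : Nc a A) (s : ℝ) : Nc (|s| * a) (s • A) := by
  obtain ⟨K, h1, h2⟩ := h
  refine ⟨s • K, h1.smul s, ?_⟩
  rw [← smul_sub, norm_smul, Real.norm_eq_abs]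
  exact mul_le_mul_of_nonneg_left h2 (abs_nonneg s)

lemma Nc.mul_left {a c : ℝ} {A : E →L[ℝ] E} (h : Nc a A) {B : E →L[ℝ] E} (hB : ‖B‖ ≤ c) :
    Nc (c * a) (B * A) := by
  obtain ⟨K, h1, h2⟩ := h
  refine ⟨B * K, h1.clm_comp B, ?_⟩
  rw [← mul_sub]
  exact (norm_mul_le _ _).trans (mul_le_mul hB h2 (norm_nonneg _) ((norm_nonneg _).trans hB))

lemma Nc.mul_right {a c : ℝ} {A : E →L[ℝ] E} (h : Nc a A) {B : E →L[ℝ] E} (hB : ‖B‖ ≤ c) :
    Nc (a * c) (A * B) := by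
  obtain ⟨K, h1, h2⟩ := h
  refine ⟨K * B, h1.comp_clm B, ?_⟩
  rw [← sub_mul]
  exact (norm_mul_le _ _).trans (mul_le_mul h2 hB (norm_nonneg _) ((norm_nonneg _).trans h2))

lemma Nc.op_left {a : ℝ} {A : E →L[ℝ] E} (h : Nc a A) (g : E ≃ₗᵢ[ℝ] E) : Nc a (op g * A) := by
  have := h.mul_left (op_norm_le g)
  rwa [one_mul] at this

lemma Nc.op_right {a : ℝ} {A : E →L[ℝ] E} (h : Nc a A) (g : E ≃ₗᵢ[ℝ] E) : Nc a (A * op g) := by
  have := h.mul_right (op_norm_le g)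
  rwa [mul_one] at this

lemma Nc.inv {a : ℝ} {g : E ≃ₗᵢ[ℝ] E} (h : Nc a (op g - 1 : E →L[ℝ] E)) :
    Nc a (op g⁻¹ - 1 : E →L[ℝ] E) := by
  rw [inv_eq]
  exact (h.op_left g⁻¹).neg

/-- compact operators are strictly singular -/
lemma ss_of_cpt [CompleteSpace E] {K : E →L[ℝ] E} (hK : IsCompactOperator K) : SSg K := by
  intro W hW ε hε
  by_contra hcon
  push Not at hcon
  apply hW
  set V := W.topologicalClosure with hV
  have h1 : ∀ x ∈ W, ε * ‖x‖ ≤ ‖K x‖ := by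
    intro x hx
    by_cases hx0 : x = 0
    · rw [hx0, norm_zero, mul_zero]
      positivity
    · have hx' : 0 < ‖x‖ := norm_pos_iff.2 hx0
      have h2 := hcon (‖x‖⁻¹ • x) (W.smul_mem _ hx)
        (by rw [norm_smul, norm_inv, norm_norm, inv_mul_cancel₀ hx'.ne'])
      rw [map_smul, norm_smul, norm_inv, norm_norm, inv_mul_eq_div, le_div_iff₀ hx'] at h2
      exact h2
  have h2 : ∀ x ∈ V, ε * ‖x‖ ≤ ‖K x‖ := by
    have hc : IsClosed {x : E | ε * ‖x‖ ≤ ‖K x‖} :=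
      isClosed_le (continuous_const.mul continuous_norm) K.continuous.norm
    intro x hx
    exact closure_minimal (fun y hy => h1 y hy) hc hx
  haveI : CompleteSpace V := W.isClosed_topologicalClosure.completeSpace_coe
  let K' : V →L[ℝ] E := K.comp V.subtypeL
  have h3 : ∀ x : V, ‖x‖ ≤ (Real.toNNReal ε⁻¹ : ℝ) * ‖K' x‖ := by
    intro x
    rw [Real.coe_toNNReal _ (by positivity), inv_mul_eq_div, le_div_iff₀ hε, mul_comm]
    exact h2 x x.2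
  have h4 : AntilipschitzWith (Real.toNNReal ε⁻¹) K' := K'.antilipschitz_of_bound h3
  have h5 : Topology.IsClosedEmbedding K' := h4.isClosedEmbedding K'.uniformContinuous
  have h6 := hK.isCompact_closure_image_closedBall (𝕜₁ := ℝ) (σ₁₂ := RingHom.id ℝ)
    (f := (K : E →ₗ[ℝ] E)) 1
  have h7 := h5.isCompact_preimage h6
  have h8 : IsCompact (Metric.closedBall (0 : V) 1) := by
    refine h7.of_isClosed_subset Metric.isClosed_closedBall (fun v hv => subset_closure ⟨v, ?_, rfl⟩)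
    rw [mem_closedBall_zero_iff] at hv ⊢
    exact hv
  haveI : FiniteDimensional ℝ V := FiniteDimensional.of_isCompact_closedBall ℝ one_pos h8
  exact Submodule.finiteDimensional_of_le W.le_topologicalClosure

/-- the norm of an element of `DD` is its distance from the compact operators -/
lemma norm_DD [CompleteSpace E] (hE : ¬ FiniteDimensional ℝ E)
    (hat : AT (⊤ : Subgroup (E ≃ₗᵢ[ℝ] E))) {a : E →L[ℝ] E}
    (ha : a ∈ DD (⊤ : Subgroup (E ≃ₗᵢ[ℝ] E))) {ρ : ℝ} (h : Nc ρ a) : ‖a‖ ≤ ρ := by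
  obtain ⟨K, hK, hKa⟩ := h
  apply le_of_forall_pos_le_add
  intro ε hε
  obtain ⟨x, hx1, hx2⟩ := small_of_cpt hE hK hε
  have h1 := (core_DD hE hat).2 a ha x
  rw [hx1, mul_one] at h1
  have h2 : a x = (a - K) x + K x := by
    show a x = a x - K x + K x
    abel
  have h3 := (a - K).le_opNorm x
  rw [hx1, mul_one] at h3
  have h4 := norm_add_le ((a - K) x) (K x)
  rw [← h2, h1] at h4
  linarith

lemma KX_le (K : E →L[ℝ] E) : ∀ _ : ℕ, ‖(‖K‖ + 1)⁻¹ • K‖ ≤ 1 := by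
  intro _
  rw [norm_smul, norm_inv, Real.norm_of_nonneg (by positivity), inv_mul_le_iff₀ (by positivity)]
  linarith

/-- the extension of an operator to the ultrapower -/
noncomputable def KX (K : E →L[ℝ] E) : X E →L[ℝ] X E :=
  (‖K‖ + 1) • OX (fun _ : ℕ => (‖K‖ + 1)⁻¹ • K) (KX_le K)

lemma KX_cl (K : E →L[ℝ] E) (f : ℕ →ᵇ E) :
    KX K (cl f) = cl ((‖K‖ + 1) • OB (fun _ : ℕ => (‖K‖ + 1)⁻¹ • K) (KX_le K) f) := rfl

lemma KX_at (K : E →L[ℝ] E) (f : ℕ →ᵇ E) (n : ℕ) :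
    ((‖K‖ + 1) • OB (fun _ : ℕ => (‖K‖ + 1)⁻¹ • K) (KX_le K) f) n = K (f n) := by
  show (‖K‖ + 1) • ((‖K‖ + 1)⁻¹ • K (f n)) = K (f n)
  rw [smul_smul, mul_inv_cancel₀ (by positivity), one_smul]

lemma cpt_KX {K : E →L[ℝ] E} (hT : IsCompactOperator K) : IsCompactOperator (KX K) := by
  have hK := hT.isCompact_closure_image_closedBall (𝕜₁ := ℝ) (σ₁₂ := RingHom.id ℝ)
    (f := (K : E →ₗ[ℝ] E)) 1
  set S := closure ((K : E →ₗ[ℝ] E) '' Metric.closedBall 0 1) with hS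
  refine ⟨io '' S, hK.image io.continuous, ?_⟩
  refine Filter.mem_of_superset (Metric.ball_mem_nhds (0 : X E) one_pos) ?_
  intro ξ hξ
  rw [mem_ball_zero_iff] at hξ
  obtain ⟨m, hm, hmn⟩ := Submodule.Quotient.norm_mk_lt ξ (ε := 1 - ‖ξ‖) (by linarith)
  have hm1 : ‖m‖ ≤ 1 := by linarith
  have hmS : ∀ n, K (m n) ∈ S := by
    intro n
    apply subset_closure
    refine ⟨m n, ?_, rfl⟩
    rw [mem_closedBall_zero_iff]
    exact (m.norm_coe_le_norm n).trans hm1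
  have h1 : ((((hyperfilter ℕ).map (fun n => K (m n)) : Ultrafilter E)) : Filter E) ≤ 𝓟 S := by
    rw [le_principal_iff]
    show ∀ᶠ n in (hyperfilter ℕ : Filter ℕ), K (m n) ∈ S
    exact Eventually.of_forall hmS
  obtain ⟨s, hs, hlim⟩ := isCompact_iff_ultrafilter_le_nhds.1 hK _ h1
  have hlim' : Tendsto (fun n => K (m n)) (hyperfilter ℕ : Filter ℕ) (𝓝 s) := hlim
  refine ⟨s, hs, ?_⟩
  have h2 : KX K ξ = cl ((‖K‖ + 1) • OB (fun _ : ℕ => (‖K‖ + 1)⁻¹ • K) (KX_le K) m) := by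
    rw [← hm]
    rfl
  show io s = KX K ξ
  rw [h2, io_apply, cl_eq]
  have h3 : Tendsto (fun n => ‖s - K (m n)‖) (hyperfilter ℕ : Filter ℕ) (𝓝 ‖s - s‖) :=
    (tendsto_const_nhds.sub hlim').norm
  rw [sub_self, norm_zero] at h3
  refine h3.congr (fun n => ?_)
  rw [KX_at, mkB_apply]

lemma near_KX {T : E ≃ₗᵢ[ℝ] E} {K : E →L[ℝ] E} {ρ : ℝ} (h : ‖op T - 1 - K‖ ≤ ρ) (ξ : X E) :
    ‖(TX fun _ : ℕ => T) ξ - ξ - KX K ξ‖ ≤ ρ * ‖ξ‖ := by
  obtain ⟨f, rfl⟩ := cl_surj ξ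
  have h1 : (TX fun _ : ℕ => T) (cl f) - cl f - KX K (cl f) =
      cl (TB (fun _ => T) f - f - (‖K‖ + 1) • OB (fun _ : ℕ => (‖K‖ + 1)⁻¹ • K) (KX_le K) f) := rfl
  rw [h1]
  refine le_of_tendsto_of_tendsto' (tendsto_norm _) ((tendsto_norm f).const_mul ρ) (fun n => ?_)
  have h2 : (TB (fun _ => T) f - f - (‖K‖ + 1) • OB (fun _ : ℕ => (‖K‖ + 1)⁻¹ • K) (KX_le K) f) n =
      (op T - 1 - K) (f n) := by
    rw [BoundedContinuousFunction.sub_apply, BoundedContinuousFunction.sub_apply, KX_at]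
    rfl
  rw [h2]
  exact (ContinuousLinearMap.le_opNorm _ _).trans (mul_le_mul_of_nonneg_right h (norm_nonneg _))

lemma io_TX (T : E ≃ₗᵢ[ℝ] E) (z : E) : (TX fun _ : ℕ => T) (io z) = io (T z) := by
  rw [io_apply, TX_cl, io_apply, cl_eq]
  have h2 : ∀ n, ‖TB (fun _ : ℕ => T) (mkB (fun _ => z) ‖z‖ fun _ => le_rfl) n -
      (mkB (fun _ => T z) ‖T z‖ fun _ => le_rfl : ℕ →ᵇ E) n‖ = 0 := by
    intro n
    rw [TB_apply, mkB_apply, mkB_apply, sub_self, norm_zero]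
  simp only [h2]
  exact tendsto_const_nhds

lemma norm_TX (T : E ≃ₗᵢ[ℝ] E) : ‖op T - 1‖ ≤ ‖op (TX fun _ : ℕ => T) - 1‖ := by
  refine ContinuousLinearMap.opNorm_le_bound _ (norm_nonneg _) (fun z => ?_)
  have h1 := (op (TX fun _ : ℕ => T) - 1 : X E →L[ℝ] X E).le_opNorm (io z)
  have h2 : (op (TX fun _ : ℕ => T) - 1 : X E →L[ℝ] X E) (io z) = io (T z - z) := by
    show (TX fun _ : ℕ => T) (io z) - io z = _
    rw [io_TX, map_sub]
  rw [h2, io.norm_map, io.norm_map] at h1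
  exact h1

lemma est' (g : E ≃ₗᵢ[ℝ] E) {t : ℝ} (ht : 0 < t) (hg : ‖op g - 1‖ ≤ t) (s : ℝ) :
    ‖(1 : E →L[ℝ] E) + s • (t⁻¹ • (op g - 1))‖ ≤ 1 + s ^ 2 + (1 + |s|) * t := by
  rcases (norm_nonneg (op g - 1 : E →L[ℝ] E)).eq_or_lt with h0 | h0
  · have h1 : (op g - 1 : E →L[ℝ] E) = 0 := norm_eq_zero.1 h0.symm
    rw [h1, smul_zero, smul_zero, add_zero]
    have h2 : ‖(1 : E →L[ℝ] E)‖ ≤ 1 := ContinuousLinearMap.norm_id_le
    have h3 : 0 ≤ (1 + |s|) * t := by positivity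
    nlinarith [sq_nonneg s]
  · set a := ‖op g - 1‖ with ha
    have h1 := est g h0 (s * (a / t))
    rw [← ha] at h1
    have h2 : s • (t⁻¹ • (op g - 1)) = (s * (a / t)) • (a⁻¹ • (op g - 1)) := by
      rw [smul_smul, smul_smul]
      congr 1
      field_simp
    rw [h2]
    refine h1.trans ?_
    have hr0 : 0 ≤ a / t := by positivity
    have hr1 : a / t ≤ 1 := by
      rw [div_le_one ht]
      exact hg
    have h3 : (s * (a / t)) ^ 2 ≤ s ^ 2 := by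
      rw [mul_pow]
      have : (a / t) ^ 2 ≤ 1 := by nlinarith
      nlinarith [sq_nonneg s]
    have h4 : |s * (a / t)| ≤ |s| := by
      rw [abs_mul, abs_of_nonneg hr0]
      exact mul_le_of_le_one_right (abs_nonneg s) hr1
    have h5 : (1 + |s * (a / t)|) * a ≤ (1 + |s|) * t :=
      mul_le_mul (by linarith) hg (norm_nonneg _) (by positivity)
    linarith

/-- **Theorem B.** -/
theorem paral_ult [CompleteSpace E] (hE : ¬ FiniteDimensional ℝ E)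
    (htr : ∀ x y : E, ‖x‖ = 1 → ‖y‖ = 1 → ∀ ε : ℝ, 0 < ε → ∃ T : E ≃ₗᵢ[ℝ] E, ‖T x - y‖ < ε)
    (T : ℕ → E ≃ₗᵢ[ℝ] E) {δ : ℝ} (hδ : 0 < δ) (hT1 : ∀ n, δ ≤ ‖op (T n) - 1‖)
    {ρ : ℕ → ℝ} (hρ : Tendsto ρ atTop (𝓝 0)) (hT : ∀ n, Nc (ρ n) (op (T n) - 1 : E →L[ℝ] E))
    (g : ℕ → E ≃ₗᵢ[ℝ] E) {t : ℕ → ℝ} (ht : ∀ n, 0 < t n) (ht0 : Tendsto t atTop (𝓝 0))
    (hg : ∀ n, ‖op (g n) - 1‖ ≤ t n) (hB1 : ∀ n, ‖(t n)⁻¹ • (op (g n) - 1 : E →L[ℝ] E)‖ ≤ 1)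
    (hB : OX (fun n => (t n)⁻¹ • (op (g n) - 1 : E →L[ℝ] E)) hB1 ∉
      DD (⊤ : Subgroup (X E ≃ₗᵢ[ℝ] X E))) (x y : E) :
    ‖x + y‖ ^ 2 + ‖x - y‖ ^ 2 = 2 * ‖x‖ ^ 2 + 2 * ‖y‖ ^ 2 := by
  haveI : Nontrivial E := nontriv hE
  obtain ⟨e, he⟩ : ∃ e : E, ‖e‖ = 1 := exists_norm_eq E zero_le_one
  have hXE : ¬ FiniteDimensional ℝ (X E) := by
    intro h
    exact hE (FiniteDimensional.of_injective (io (E := E)).toLinearMap (io (E := E)).injective)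
  have hSk : Sk (OX (fun n => (t n)⁻¹ • (op (g n) - 1 : E →L[ℝ] E)) hB1) := by
    apply Sk_OX
    intro s
    refine ⟨fun n => (1 + |s|) * t n, ?_, fun n => est' (g n) (ht n) (hg n) s⟩
    have := ht0.const_mul (1 + |s|)
    rwa [mul_zero] at this
  have h := paral_skew' hXE (tr_X he htr) (fun n => TX fun _ : ℕ => T n) hδ
    (fun n => (hT1 n).trans (norm_TX (T n))) (fun c hc => ?_) hSk hB (io x) (io y)
  · rw [← map_add, ← map_sub, io.norm_map, io.norm_map, io.norm_map, io.norm_map] at h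
    exact h
  · have h1 : Tendsto (fun n => ρ n * Gc c) atTop (𝓝 0) := by
      have := hρ.mul_const (Gc c)
      rwa [zero_mul] at this
    filter_upwards [h1.eventually (gt_mem_nhds one_pos)] with n hn
    obtain ⟨K, hK1, hK2⟩ := hT n
    exact fd_near (ss_of_cpt (cpt_KX hK1)) hc (near_KX hK2) hn

end Pool.Agent.U559.CQ
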