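import Pool.Agent.U559.CQ.Dich
import Pool.Agent.U559.CQ.Disc2

/-!
# Isometries at small essential distance
-/

set_option autoImplicit false
set_option linter.unusedSectionVars false
set_option linter.style.haveILetI false

namespace Pool.Agent.U559.CQ

open Filter Topology BoundedContinuousFunction Pool.Agent.U234.KM Pool.H590R3.Ab
  Pool.Agent.TH596.RO Pool.Agent.U559.CP Pool.Agent.W687.Rot

variable {E : Type*} [NormedAddCommGroup E] [NormedSpace ℝ E]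

/-! ### strictly singular and compact operators -/

/-- almost strictly singular perturbations of the identity are almost compact perturbations -/
lemma nc_of_ss [CompleteSpace E] {ε : ℝ} (hε : 0 < ε) : ∃ ρ : ℝ, 0 < ρ ∧
    ∀ (T : E ≃ₗᵢ[ℝ] E) (K : E → E), SSg K → (∀ y, ‖T y - y - K y‖ ≤ ρ * ‖y‖) →
      Nc ε (op T - 1 : E →L[ℝ] E) := by
  obtain ⟨n, hn⟩ := exists_nat_gt (4 / ε)
  have hn0 : (0 : ℝ) < n := lt_trans (by positivity) hn
  set r : ℝ := ε / (2 * n) with hr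
  have hr0 : 0 < r := by positivity
  obtain ⟨d0, hd0, h⟩ := small hr0
  have hm : 0 < min d0 1 := lt_min hd0 one_pos
  set d : ℝ := min d0 1 / 2 with hd
  have hdp : 0 < d := by positivity
  have hdd : d < d0 := by
    have := min_le_left d0 1
    linarith
  have hd1 : d ≤ 1 := by
    have := min_le_right d0 1
    linarith
  have hG : 0 ≤ Gc d := Gc_nonneg d
  refine ⟨1 / (2 * (Gc d + 1)), by positivity, fun T K hK hT => ?_⟩
  have hfd : FDc T d := by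
    refine fd_near hK hdp hT ?_
    rw [div_mul_eq_mul_div, one_mul, div_lt_one (by positivity)]
    linarith
  have hNn : Nc r (Nn T) := by
    have h1 : IsCompactOperator (1 - Ps T (bd d) : E →L[ℝ] E) := cpt_of_fd hfd
    have h2 : IsCompactOperator (Nn T * (1 - Ps T (bd d)) : E →L[ℝ] E) := h1.clm_comp (Nn T)
    refine ⟨Nn T * (1 - Ps T (bd d)), h2, ?_⟩
    have hgd : ContDiff ℝ 2 (fun u : ℝ => (u - 1) * b ((u - 1) / d)) :=
      (contDiff_id.sub contDiff_const).mul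
        (b_contDiff.comp ((contDiff_id.sub contDiff_const).div_const _))
    have h3 : Nn T * Ps T (bd d) = Ps T (fun u => (u - 1) * b ((u - 1) / d)) :=
      Co_Ps T (bd_contDiff _) 1
    have h4 : Nn T - Nn T * (1 - Ps T (bd d)) = Nn T * Ps T (bd d) := by
      rw [mul_sub, mul_one, sub_sub_cancel]
    rw [h4, h3]
    exact (Ps_norm T hgd).trans (h _ hdp hdd hd1 1)
  have hsq : (op T - 1) * (op T - 1) = (2 : ℝ) • (op T * Nn T) := by
    have h1 : op T * op T⁻¹ = 1 := by rw [← op_mul, mul_inv_cancel, op_one]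
    have h2 : op T * Nn T = (1 / 2 : ℝ) • (op T * op T + 1) - op T := by
      unfold Nn Co
      rw [one_smul, mul_sub, mul_one, mul_smul_comm, mul_add, h1]
    rw [h2, mul_sub, sub_mul, mul_one, one_mul]
    module
  have hc2 : Nc (2 * r) ((op T - 1) * (op T - 1) : E →L[ℝ] E) := by
    rw [hsq]
    have := (hNn.op_left T).smul 2
    rwa [abs_of_pos two_pos] at this
  have hC : ∀ n : ℕ, Nc (n * (2 * r)) ((op (T ^ n) - 1) * (op T - 1) : E →L[ℝ] E) := by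
    intro n
    induction n with
    | zero =>
      rw [pow_zero, op_one, sub_self, zero_mul]
      exact ⟨0, isCompactOperator_zero, by simp⟩
    | succ n ih =>
      have h4 : (op (T ^ (n + 1)) - 1) * (op T - 1) =
          op T * ((op (T ^ n) - 1) * (op T - 1)) + (op T - 1) * (op T - 1) := by
        rw [pow_succ', op_mul]
        noncomm_ring
      rw [h4]
      refine Nc.mono (le_of_eq ?_) ((ih.op_left T).add hc2)
      push_cast
      ring
  have hM : ∀ n : ℕ, Nc (n ^ 2 * r) (op (T ^ n) - 1 - (n : ℝ) • (op T - 1) : E →L[ℝ] E) := by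
    intro n
    induction n with
    | zero =>
      rw [pow_zero, op_one, sub_self, Nat.cast_zero, zero_smul, sub_zero]
      exact ⟨0, isCompactOperator_zero, by simp⟩
    | succ n ih =>
      have h1 : op (T ^ (n + 1)) - 1 - ((n + 1 : ℕ) : ℝ) • (op T - 1) =
          (op (T ^ n) - 1 - (n : ℝ) • (op T - 1)) + (op (T ^ n) - 1) * (op T - 1) := by
        rw [pow_succ, op_mul, sub_mul, one_mul, mul_sub, mul_one]
        push_cast
        module
      rw [h1]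
      refine Nc.mono ?_ (ih.add (hC n))
      push_cast
      nlinarith
  have h5 : op T - 1 = (-(1 / (n : ℝ))) • (op (T ^ n) - 1 - (n : ℝ) • (op T - 1)) +
      (1 / (n : ℝ)) • (op (T ^ n) - 1) := by
    have h6 : -(1 / (n : ℝ)) * n = -1 := by field_simp
    rw [smul_sub (-(1 / (n : ℝ))) (op (T ^ n) - 1), smul_smul, h6]
    module
  have h6 : Nc (1 / n * 2) ((1 / (n : ℝ)) • (op (T ^ n) - 1) : E →L[ℝ] E) := by
    refine ⟨0, isCompactOperator_zero, ?_⟩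
    rw [sub_zero, norm_smul, Real.norm_of_nonneg (by positivity)]
    exact mul_le_mul_of_nonneg_left (norm_sub_one_le _) (by positivity)
  rw [h5]
  refine Nc.mono ?_ (((hM n).smul (-(1 / (n : ℝ)))).add h6)
  rw [abs_neg, abs_of_pos (by positivity)]
  have h7 : 1 / (n : ℝ) * (n ^ 2 * r) = ε / 2 := by
    rw [hr]
    field_simp
  have h8 : 1 / (n : ℝ) * 2 ≤ ε / 2 := by
    rw [div_lt_iff₀ hε] at hn
    rw [div_mul_eq_mul_div, div_le_iff₀ hn0]
    linarith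
  rw [h7]
  linarith

/-! ### powers -/

lemma pow_near (g : E ≃ₗᵢ[ℝ] E) {K : E → E} {ρ : ℝ} (hK : SSg K)
    (h : ∀ y, ‖g y - y - K y‖ ≤ ρ * ‖y‖) (k : ℕ) :
    ∃ K' : E → E, SSg K' ∧ ∀ y, ‖(g ^ k) y - y - K' y‖ ≤ k * ρ * ‖y‖ := by
  set P : E →L[ℝ] E := ∑ i ∈ Finset.range k, op (g ^ i) with hP
  have h1 : P * (op g - 1) = op (g ^ k) - 1 := by
    rw [hP]
    clear hP
    clear_value P
    induction k with
    | zero => simp [op_one]
    | succ k ih =>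
      rw [Finset.sum_range_succ, add_mul, ih, pow_succ, op_mul, mul_sub, mul_one]
      abel
  have h2 : ∀ x, ‖P x‖ ≤ k * ‖x‖ := by
    intro x
    have e1 : P x = ∑ i ∈ Finset.range k, (g ^ i) x := by
      rw [hP, _root_.sum_apply]
      rfl
    rw [e1]
    refine (norm_sum_le _ _).trans ?_
    simp only [LinearIsometryEquiv.norm_map, Finset.sum_const, Finset.card_range, nsmul_eq_mul,
      le_refl]
  refine ⟨fun y => P (K y), ?_, fun y => ?_⟩
  · intro W hW η hη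
    obtain ⟨x, hx, hx1, hx2⟩ := hK W hW (η / (k + 1)) (by positivity)
    refine ⟨x, hx, hx1, (h2 _).trans_lt ?_⟩
    rw [lt_div_iff₀ (by positivity)] at hx2
    nlinarith [norm_nonneg (K x)]
  · have e1 : (g ^ k) y - y = P (g y - y) := (DFunLike.congr_fun h1 y).symm
    rw [e1, ← map_sub]
    refine (h2 _).trans ?_
    rw [mul_assoc]
    exact mul_le_mul_of_nonneg_left (h y) (Nat.cast_nonneg k)

/-- a power at a definite distance from the identity -/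
lemma pow_big (g : E ≃ₗᵢ[ℝ] E) (hg : g ≠ 1) {K : E → E} {ε : ℝ} (hε : 0 ≤ ε) (hK : SSg K)
    (h : ∀ y, ‖g y - y - K y‖ ≤ ε * ‖op g - 1‖ * ‖y‖) :
    ∃ (T : E ≃ₗᵢ[ℝ] E) (K' : E → E), 1 / 8 ≤ ‖op T - 1‖ ∧ SSg K' ∧
      ∀ y, ‖T y - y - K' y‖ ≤ 2 * ε * ‖y‖ := by
  have ha : 0 < ‖op g - 1‖ := by
    rw [norm_pos_iff]
    intro h0
    exact hg (eq_one_of_norm h0)
  set a := ‖op g - 1‖ with had
  by_cases hbig : 1 / 8 ≤ a
  · refine ⟨g, K, hbig, hK, fun y => (h y).trans ?_⟩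
    have h2 : a ≤ 2 := norm_sub_one_le g
    have h3 : ε * a ≤ 2 * ε := by nlinarith
    exact mul_le_mul_of_nonneg_right h3 (norm_nonneg y)
  · push Not at hbig
    set k : ℕ := ⌊1 / (2 * a)⌋₊ with hk
    have h1 : (k : ℝ) * a ≤ 1 / 2 := by
      have h2 : (k : ℝ) ≤ 1 / (2 * a) := Nat.floor_le (by positivity)
      rw [le_div_iff₀ (by positivity)] at h2
      linarith
    have h2 : 1 / 4 ≤ (k : ℝ) * a := by
      have h3 : 1 / (2 * a) < k + 1 := Nat.lt_floor_add_one _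
      rw [div_lt_iff₀ (by positivity)] at h3
      linarith
    obtain ⟨K', hK', hK'2⟩ := pow_near g hK h k
    refine ⟨g ^ k, K', ?_, hK', fun y => (hK'2 y).trans ?_⟩
    · have h3 := pow2 g k
      rw [← had] at h3
      have h4 : ‖(k : ℝ) • (op g - 1)‖ ≤ ‖op (g ^ k) - 1‖ +
          ‖op (g ^ k) - 1 - (k : ℝ) • (op g - 1)‖ := by
        calc ‖(k : ℝ) • (op g - 1)‖ =
              ‖(op (g ^ k) - 1) - (op (g ^ k) - 1 - (k : ℝ) • (op g - 1))‖ := by
              rw [sub_sub_cancel]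
          _ ≤ _ := norm_sub_le _ _
      rw [norm_smul, Real.norm_of_nonneg (Nat.cast_nonneg k), ← had] at h4
      nlinarith
    · refine mul_le_mul_of_nonneg_right ?_ (norm_nonneg y)
      nlinarith

/-! ### sequences -/

/-- a sequence of isometries away from the identity with small essential distance from it -/
lemma exists_seq [CompleteSpace E]
    (h : ∀ ε : ℝ, 0 < ε → ∃ (g : E ≃ₗᵢ[ℝ] E) (K : E → E), g ≠ 1 ∧ SSg K ∧
      ∀ y, ‖g y - y - K y‖ ≤ ε * ‖op g - 1‖ * ‖y‖) :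
    ∃ T : ℕ → E ≃ₗᵢ[ℝ] E, (∀ n, 1 / 8 ≤ ‖op (T n) - 1‖) ∧
      ∀ n : ℕ, Nc (1 / ((n : ℝ) + 1)) (op (T n) - 1 : E →L[ℝ] E) := by
  have h1 : ∀ n : ℕ, ∃ T : E ≃ₗᵢ[ℝ] E, 1 / 8 ≤ ‖op T - 1‖ ∧
      Nc (1 / ((n : ℝ) + 1)) (op T - 1 : E →L[ℝ] E) := by
    intro n
    obtain ⟨ρ, hρ, hρ2⟩ := nc_of_ss (E := E) (ε := 1 / ((n : ℝ) + 1)) (by positivity)
    obtain ⟨g, K, hg, hK, hgK⟩ := h (ρ / 2) (by positivity)
    obtain ⟨T, K', hT, hK', hTK⟩ := pow_big g hg (by positivity) hK hgK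
    refine ⟨T, hT, hρ2 T K' hK' (fun y => (hTK y).trans (le_of_eq ?_))⟩
    ring
  choose T hT1 hT2 using h1
  exact ⟨T, hT1, hT2⟩

/-- **Separable transitive spaces.** -/
theorem paral_sep [CompleteSpace E] [TopologicalSpace.SeparableSpace E]
    (hE : ¬ FiniteDimensional ℝ E)
    (htr : ∀ x y : E, ‖x‖ = 1 → ‖y‖ = 1 → ∃ T : E ≃ₗᵢ[ℝ] E, T x = y)
    (h : ∀ ε : ℝ, 0 < ε → ∃ (g : E ≃ₗᵢ[ℝ] E) (K : E → E), g ≠ 1 ∧ SSg K ∧
      ∀ y, ‖g y - y - K y‖ ≤ ε * ‖op g - 1‖ * ‖y‖) (x y : E) :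
    ‖x + y‖ ^ 2 + ‖x - y‖ ^ 2 = 2 * ‖x‖ ^ 2 + 2 * ‖y‖ ^ 2 := by
  have htr' : ∀ x y : E, ‖x‖ = 1 → ‖y‖ = 1 → ∀ ε : ℝ, 0 < ε →
      ∃ T : E ≃ₗᵢ[ℝ] E, ‖T x - y‖ < ε := by
    intro x y hx hy ε hε
    obtain ⟨S, hS⟩ := htr x y hx hy
    exact ⟨S, by rw [hS, sub_self, norm_zero]; exact hε⟩
  obtain ⟨T, hT1, hT2⟩ := exists_seq h
  by_cases hta : Tame E
  · exfalso
    obtain ⟨r, hr, hsm⟩ := tame_small hE htr' hta
    obtain ⟨n, hn⟩ := exists_nat_gt (max 160 (2000 / r))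
    have hn1 : (160 : ℝ) < n := (le_max_left _ _).trans_lt hn
    have hn2 : 2000 / r < n := (le_max_right _ _).trans_lt hn
    have h3 : 1 / ((n : ℝ) + 1) ≤ 1 / 160 := one_div_le_one_div_of_le (by norm_num) (by linarith)
    have h4 : 1 / ((n : ℝ) + 1) ≤ r / 2000 := by
      rw [div_lt_iff₀ hr] at hn2
      rw [div_le_div_iff₀ (by positivity) (by norm_num)]
      nlinarith
    have h5 := near_small hE htr hr hsm h3 h4 (hT2 n)
    have h6 := hT1 n
    linarith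
  · unfold Tame at hta
    push Not at hta
    obtain ⟨g, t, ht, ht0, hg, hB1, hB⟩ := hta
    exact paral_ult hE htr' T (by norm_num) hT1 (tendsto_one_div_add_atTop_nhds_zero_nat (𝕜 := ℝ))
      hT2 g ht ht0 hg hB1 hB x y

/-- **Almost transitive spaces.** -/
theorem paral_any [CompleteSpace E] (hE : ¬ FiniteDimensional ℝ E)
    (htr : ∀ x y : E, ‖x‖ = 1 → ‖y‖ = 1 → ∀ ε : ℝ, 0 < ε → ∃ T : E ≃ₗᵢ[ℝ] E, ‖T x - y‖ < ε)
    (h : ∀ ε : ℝ, 0 < ε → ∃ (g : E ≃ₗᵢ[ℝ] E) (K : E → E), g ≠ 1 ∧ ‖op g - 1‖ ≤ ε ∧ SSg K ∧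
      ∀ y, ‖g y - y - K y‖ ≤ ε * ‖op g - 1‖ * ‖y‖) (x y : E) :
    ‖x + y‖ ^ 2 + ‖x - y‖ ^ 2 = 2 * ‖x‖ ^ 2 + 2 * ‖y‖ ^ 2 := by
  haveI : Nontrivial E := nontriv hE
  obtain ⟨e, he⟩ : ∃ e : E, ‖e‖ = 1 := exists_norm_eq E zero_le_one
  have hXE : ¬ FiniteDimensional ℝ (X E) := by
    intro h
    exact hE (FiniteDimensional.of_injective (io (E := E)).toLinearMap (io (E := E)).injective)
  have hat : AT (⊤ : Subgroup (X E ≃ₗᵢ[ℝ] X E)) := by
    intro x y hx hy ε hε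
    obtain ⟨T, hT⟩ := tr_X he htr x y hx hy
    exact ⟨T, trivial, by rw [hT, sub_self, norm_zero]; exact hε⟩
  obtain ⟨T, hT1, hT2⟩ := exists_seq fun ε hε => by
    obtain ⟨g, K, h1, _, h3, h4⟩ := h ε hε
    exact ⟨g, K, h1, h3, h4⟩
  choose g K hg1 hg2 hK hgK using fun n : ℕ => h (1 / ((n : ℝ) + 1)) (by positivity)
  have hpos : ∀ n, 0 < ‖op (g n) - 1‖ := by
    intro n
    rw [norm_pos_iff]
    intro h0
    exact hg1 n (eq_one_of_norm h0)
  have hnn : Tendsto (fun n => ‖op (g n) - 1‖) atTop (𝓝 0) :=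
    squeeze_zero (fun n => norm_nonneg _) hg2 (tendsto_one_div_add_atTop_nhds_zero_nat (𝕜 := ℝ))
  have hBn : ∀ n, ‖‖op (g n) - 1‖⁻¹ • (op (g n) - 1 : E →L[ℝ] E)‖ = 1 := by
    intro n
    rw [norm_smul, norm_inv, norm_norm, inv_mul_cancel₀ (hpos n).ne']
  have hB1 : ∀ n, ‖‖op (g n) - 1‖⁻¹ • (op (g n) - 1 : E →L[ℝ] E)‖ ≤ 1 := fun n => (hBn n).le
  refine paral_ult hE htr T (by norm_num) hT1 (tendsto_one_div_add_atTop_nhds_zero_nat (𝕜 := ℝ))
    hT2 g hpos hnn (fun n => le_rfl) hB1 ?_ x y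
  intro hmem
  -- the norm of the blow-up
  have hne : (1 / 2 : ℝ) ≤ ‖OX (fun n => ‖op (g n) - 1‖⁻¹ • (op (g n) - 1 : E →L[ℝ] E)) hB1‖ := by
    have h1 := OX_sub_ge (fun n => ‖op (g n) - 1‖⁻¹ • (op (g n) - 1 : E →L[ℝ] E)) (fun _ => 0) hB1
      (fun _ => by rw [norm_zero]; exact zero_le_one) (fun n => by
        rw [sub_zero, hBn n]
        norm_num)
    have h2 : OX (fun _ : ℕ => (0 : E →L[ℝ] E)) (fun _ => by rw [norm_zero]; exact zero_le_one) =
        0 := by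
      ext ξ
      obtain ⟨f, rfl⟩ := cl_surj ξ
      rw [OX_cl]
      have h3 : OB (fun _ : ℕ => (0 : E →L[ℝ] E)) (fun _ => by rw [norm_zero]; exact zero_le_one) f =
          0 := by
        ext n
        rfl
      rw [h3]
      rfl
    rw [h2, sub_zero] at h1
    exact h1
  -- vectors on which the blow-ups are small
  have hz : ∀ n : ℕ, ∃ z : E, ‖z‖ = 1 ∧ ‖(‖op (g n) - 1‖⁻¹ • (op (g n) - 1 : E →L[ℝ] E)) z‖ ≤
      2 * (1 / ((n : ℝ) + 1)) := by
    intro n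
    obtain ⟨z, _, hz1, hz2⟩ := hK n ⊤ (fun h => hE (Module.Finite.equiv Submodule.topEquiv))
      (1 / ((n : ℝ) + 1) * ‖op (g n) - 1‖) (mul_pos (by positivity) (hpos n))
    refine ⟨z, hz1, ?_⟩
    have h1 := hgK n z
    rw [hz1, mul_one] at h1
    have h2 : (‖op (g n) - 1‖⁻¹ • (op (g n) - 1 : E →L[ℝ] E)) z =
        ‖op (g n) - 1‖⁻¹ • ((g n z - z - K n z) + K n z) := by
      rw [sub_add_cancel]
      rfl
    rw [h2, norm_smul, norm_inv, norm_norm, inv_mul_le_iff₀ (hpos n)]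
    refine (norm_add_le _ _).trans ?_
    linarith
  choose z hz1 hz2 using hz
  set ζ : X E := cl (mkB z 1 fun n => (hz1 n).le) with hζ
  have hζ1 : ‖ζ‖ = 1 := norm_cl_eq (by
    simp only [mkB_apply, hz1]
    exact tendsto_const_nhds)
  have hBζ : ‖OX (fun n => ‖op (g n) - 1‖⁻¹ • (op (g n) - 1 : E →L[ℝ] E)) hB1 ζ‖ = 0 := by
    rw [hζ, OX_cl]
    apply norm_cl_eq
    refine squeeze_zero (fun n => norm_nonneg _) (fun n => hz2 n) ?_
    have h1 := (tendsto_one_div_add_atTop_nhds_zero_nat (𝕜 := ℝ)).const_mul 2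
    rw [mul_zero] at h1
    exact h1.mono_left Nat.hyperfilter_le_atTop
  have h3 := (core_DD hXE hat).2 _ hmem ζ
  rw [hBζ, hζ1, mul_one] at h3
  linarith

end Pool.Agent.U559.CQ
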